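import Pool.Agent.R243.WC.Defs2

/-!
# Project WL: chords of `φ`
-/

open Set Filter Topology

noncomputable section

namespace WC243

namespace CDaux

theorem hom (h0 : phi 0 = 0) (hc : ConcaveOn ℝ (Ici 0) phi) {a x : ℝ} (ha : 0 ≤ a)
    (hax : a ≤ x) (hx : 0 < x) : a * phi x ≤ x * phi a := by
  have h := hc.2 (show (0 : ℝ) ∈ Ici 0 from le_refl (0 : ℝ)) (show x ∈ Ici (0 : ℝ) from hx.le)
    (show 0 ≤ 1 - a / x by rw [sub_nonneg, div_le_one hx]; exact hax)
    (show 0 ≤ a / x from div_nonneg ha hx.le) (by ring)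
  simp only [smul_eq_mul, h0, mul_zero, zero_add, div_mul_cancel₀ a hx.ne'] at h
  rw [div_mul_eq_mul_div, div_le_iff₀ hx] at h
  linarith

end CDaux

theorem t_CD (hPH : S_PH) (hPA : S_PA) (hPB : S_PB) : S_CD := by
  intro a b x ha hax hxb hb
  obtain ⟨h0, -, -, -, hc⟩ := hPH
  have hx : 0 < x := lt_of_le_of_lt ha hax
  have hb0 : 0 < b := hx.trans hxb
  have hba : 0 < b - a := by linarith
  have h1 : a * phi x ≤ x * phi a := CDaux.hom h0 hc ha hax.le hx
  have h2 : (x - a) * (b * phi x - x * phi b) ≤ x * (b - a) ^ 2 := by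
    have hxa : 0 ≤ x - a := by linarith
    rcases le_total b (2 * x) with h | h
    · have h3 := hPB x b hx hxb.le hb h
      have h4 : b * phi x - x * phi b ≤ 4 * x * (b - x) := by
        rw [div_mul_eq_mul_div, ← add_div, le_div_iff₀ hb0] at h3
        linarith
      have h5 := mul_le_mul_of_nonneg_left h4 hxa
      nlinarith [mul_nonneg hx.le (sq_nonneg (2 * x - a - b))]
    · have h3 := hPA x b hx hxb.le hb
      have h4 : b * phi x - x * phi b ≤ b ^ 2 := by
        rw [div_mul_eq_mul_div, ← sub_le_iff_le_add, le_div_iff₀ hb0] at h3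
        nlinarith
      have h5 := mul_le_mul_of_nonneg_left h4 hxa
      have h6 : 0 ≤ a * (b ^ 2 - x * (2 * b - a)) := by
        apply mul_nonneg ha
        nlinarith [mul_nonneg ha hx.le, mul_nonneg hb0.le (show 0 ≤ b - 2 * x by linarith)]
      nlinarith
  have hbx : 0 ≤ b - x := by linarith
  rw [div_add' _ _ _ hba.ne', le_div_iff₀ hba]
  have h3 : x * (phi x * (b - a)) ≤
      x * ((b - x) * phi a + (x - a) * phi b + (b - a) * (b - a)) := by
    nlinarith [mul_nonneg hbx (show 0 ≤ x * phi a - a * phi x by linarith)]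
  exact le_of_mul_le_mul_left h3 hx

end WC243
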