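import Pool.Agent.R243.WC.Defs2

open Set Filter Topology

noncomputable section

namespace WC243

namespace CLaux

lemma LL_symm (x : ℝ) : LL (1 - x) = LL x := by
  unfold LL
  rw [sub_sub_cancel, min_comm]

lemma LL_l (hPH : S_PH) {x : ℝ} (h0 : 0 ≤ x) (h1 : x ≤ 3 / 4) : LL x = phi x := by
  unfold LL
  rw [hPH.2.1 (1 - x) (by linarith) (by linarith)]
  exact min_eq_left (hPH.2.2.2.1 x h0 (by linarith)).2.1

lemma LL_r (hPH : S_PH) {x : ℝ} (h0 : 1 / 4 ≤ x) (h1 : x ≤ 1) : LL x = phi (1 - x) := by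
  rw [← LL_symm, LL_l hPH (by linarith) (by linarith)]

lemma LL_le_one (hPH : S_PH) {x : ℝ} (h0 : 0 ≤ x) (h1 : x ≤ 1) : LL x ≤ 1 :=
  (min_le_left _ _).trans (hPH.2.2.2.1 x h0 h1).2.1

lemma star (hPH : S_PH) {a x : ℝ} (h0 : 0 ≤ a) (h1 : a ≤ x) (hx : 0 < x) :
    a * phi x ≤ x * phi a := by
  have hc := hPH.2.2.2.2.2 (mem_Ici.2 hx.le) (mem_Ici.2 (le_refl (0:ℝ)))
    (show 0 ≤ a / x by positivity)
    (show 0 ≤ 1 - a / x by rw [sub_nonneg]; exact (div_le_one hx).2 h1) (by ring)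
  simp only [smul_eq_mul, mul_zero, add_zero, hPH.1] at hc
  rw [div_mul_cancel₀ _ hx.ne', div_mul_eq_mul_div, div_le_iff₀ hx] at hc
  linarith

lemma star4 (hPH : S_PH) {a : ℝ} (h0 : 0 ≤ a) (h1 : a ≤ 1 / 4) : 4 * a ≤ phi a := by
  have h := star hPH h0 h1 (by norm_num)
  rw [hPH.2.1 (1 / 4) le_rfl (by norm_num)] at h
  linarith

lemma core {a b y : ℝ} (h0 : 0 ≤ a) (ha : a < 1 / 4) (hay : a < y ^ 2) (hy0 : 0 < y)
    (hy1 : y ≤ 1 / 2) (hb : 3 / 4 < b) (hb1 : b ≤ 1) :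
    (y ^ 2 - a) * (2 * b - 4 * (1 - b) * y) ≤ y * (b - a) ^ 2 := by
  have k1 : (y ^ 2 - a) * (2 * b - 4 * (1 - b) * y) ≤ y * ((1 - 4 * a) * (b - (1 - b))) := by
    have e1 : y * ((1 - 4 * a) * (b - (1 - b))) - (y ^ 2 - a) * (2 * b - 4 * (1 - b) * y) =
        (1 - 2 * y) * (y * (b - (1 - b) * (1 + 2 * y)) + 2 * a * b) := by ring
    have e2 : 0 ≤ (1 - 2 * y) * (y * (b - (1 - b) * (1 + 2 * y)) + 2 * a * b) := by
      apply mul_nonneg (by linarith)
      have e3 : 0 ≤ b - (1 - b) * (1 + 2 * y) := by nlinarith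
      have e4 : 0 ≤ y * (b - (1 - b) * (1 + 2 * y)) := mul_nonneg hy0.le e3
      have e5 : 0 ≤ 2 * a * b := by
        apply mul_nonneg (by linarith) (by linarith)
      linarith
    linarith
  have k2 : (1 - 4 * a) * (b - (1 - b)) ≤ (b - a) ^ 2 := by
    have e1 : (b - a) ^ 2 - (1 - 4 * a) * (b - (1 - b)) =
        2 * a * (1 - 4 * (1 - b)) + (a + (1 - b)) ^ 2 := by ring
    have e2 : 0 ≤ 2 * a * (1 - 4 * (1 - b)) := mul_nonneg (by linarith) (by linarith)
    have e3 : 0 ≤ (a + (1 - b)) ^ 2 := sq_nonneg _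
    linarith
  exact k1.trans (mul_le_mul_of_nonneg_left k2 hy0.le)

lemma low (hPH : S_PH) {a b x : ℝ} (h0 : 0 ≤ a) (ha : a < 1 / 4) (hax : a < x) (hx : x < 1 / 4)
    (hb : 3 / 4 < b) (hb1 : b ≤ 1) :
    LL x ≤ ((b - x) * LL a + (x - a) * LL b) / (b - a) + (b - a) := by
  have hx0 : 0 < x := by linarith
  have hba : 0 < b - a := by linarith
  rw [LL_l hPH hx0.le (by linarith), LL_l hPH h0 (by linarith), LL_r hPH (by linarith) hb1]
  have s1 := star hPH h0 hax.le hx0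
  have s2 := star4 hPH (a := 1 - b) (by linarith) (by linarith)
  have hP := (hPH.2.2.2.1 x hx0.le (by linarith)).2.2
  have hy2 : √x ^ 2 = x := Real.sq_sqrt hx0.le
  have hy0 : 0 < √x := Real.sqrt_pos.2 hx0
  generalize √x = y at hP hy2 hy0
  subst hy2
  have hy1 : y ≤ 1 / 2 := by nlinarith
  have hcore := core h0 ha hax hy0 hy1 hb hb1
  rw [← sub_le_iff_le_add, le_div_iff₀ hba]
  generalize phi (y ^ 2) = P at s1 hP ⊢
  generalize phi a = A at s1 ⊢
  generalize phi (1 - b) = C at s2 ⊢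
  have m1 : y ^ 2 * ((P - (b - a)) * (b - a)) ≤
      y ^ 2 * ((b - y ^ 2) * A + (y ^ 2 - a) * C) := by
    have e1 : P * (b * (y ^ 2 - a)) ≤ 2 * y * (b * (y ^ 2 - a)) :=
      mul_le_mul_of_nonneg_right hP (mul_nonneg (by linarith) (by linarith))
    have e2 : y * ((y ^ 2 - a) * (2 * b - 4 * (1 - b) * y)) ≤ y * (y * (b - a) ^ 2) :=
      mul_le_mul_of_nonneg_left hcore hy0.le
    have e3 : (b - y ^ 2) * (a * P) ≤ (b - y ^ 2) * (y ^ 2 * A) :=
      mul_le_mul_of_nonneg_left s1 (by linarith)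
    have e4 : (y ^ 2 * (y ^ 2 - a)) * (4 * (1 - b)) ≤ (y ^ 2 * (y ^ 2 - a)) * C :=
      mul_le_mul_of_nonneg_left s2 (mul_nonneg (by positivity) (by linarith))
    nlinarith
  exact le_of_mul_le_mul_left m1 (by positivity)

lemma mid (hPH : S_PH) {a b x : ℝ} (h0 : 0 ≤ a) (ha : a < 1 / 4) (hx1 : 1 / 4 ≤ x)
    (hx : x ≤ 3 / 4) (hb : 3 / 4 < b) (hb1 : b ≤ 1) :
    LL x ≤ ((b - x) * LL a + (x - a) * LL b) / (b - a) + (b - a) := by
  have hba : 0 < b - a := by linarith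
  have h1 := LL_le_one hPH (x := x) (by linarith) (by linarith)
  rw [LL_l hPH h0 (by linarith), LL_r hPH (by linarith) hb1]
  have s1 := star4 hPH h0 ha.le
  have s2 := star4 hPH (a := 1 - b) (by linarith) (by linarith)
  refine h1.trans ?_
  rw [← sub_le_iff_le_add, le_div_iff₀ hba]
  generalize phi a = A at s1 ⊢
  generalize phi (1 - b) = C at s2 ⊢
  have e1 : (b - x) * (4 * a) ≤ (b - x) * A := mul_le_mul_of_nonneg_left s1 (by linarith)
  have e2 : (x - a) * (4 * (1 - b)) ≤ (x - a) * C := mul_le_mul_of_nonneg_left s2 (by linarith)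
  have g1 : 0 ≤ 2 * (1 - b) * (1 - 4 * a) + (a + (1 - b)) ^ 2 :=
    add_nonneg (mul_nonneg (by linarith) (by linarith)) (sq_nonneg _)
  have g2 : 0 ≤ 2 * a * (1 - 4 * (1 - b)) + (a + (1 - b)) ^ 2 :=
    add_nonneg (mul_nonneg (by linarith) (by linarith)) (sq_nonneg _)
  have g3 := mul_nonneg (show 0 ≤ x - 1 / 4 by linarith) g1
  have g4 := mul_nonneg (show 0 ≤ 3 / 4 - x by linarith) g2
  nlinarith

end CLaux

open CLaux in
theorem t_CL (hPH : S_PH) (hCD : S_CD) : S_CL := by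
  intro a b x h0 hax hxb hb1
  rcases le_or_gt b (3 / 4) with hb | hb
  · have h := hCD a b x h0 hax hxb hb1
    rwa [LL_l hPH (x := x) (by linarith) (by linarith), LL_l hPH (x := a) h0 (by linarith),
      LL_l hPH (x := b) (by linarith) hb]
  rcases lt_or_ge a (1 / 4) with ha | ha
  · rcases lt_or_ge x (1 / 4) with hx | hx
    · exact low hPH h0 ha hax hx hb hb1
    · rcases le_or_gt x (3 / 4) with hx2 | hx2
      · exact mid hPH h0 ha hx hx2 hb hb1
      · have h := low hPH (a := 1 - b) (b := 1 - a) (x := 1 - x) (by linarith) (by linarith)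
          (by linarith) (by linarith) (by linarith) (by linarith)
        rw [LL_symm, LL_symm, LL_symm] at h
        have e1 : (1 - a - (1 - x)) * LL b + (1 - x - (1 - b)) * LL a =
            (b - x) * LL a + (x - a) * LL b := by ring
        have e2 : 1 - a - (1 - b) = b - a := by ring
        rw [e1, e2] at h
        exact h
  · have h := hCD (1 - b) (1 - a) (1 - x) (by linarith) (by linarith) (by linarith) (by linarith)
    rw [LL_r hPH (x := x) (by linarith) (by linarith), LL_r hPH (x := a) ha (by linarith),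
      LL_r hPH (x := b) (by linarith) hb1]
    have e1 : (1 - a - (1 - x)) * phi (1 - b) + (1 - x - (1 - b)) * phi (1 - a) =
        (b - x) * phi (1 - a) + (x - a) * phi (1 - b) := by ring
    have e2 : 1 - a - (1 - b) = b - a := by ring
    rw [e1, e2] at h
    exact h

end WC243
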