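import Mathlib

/-!
# Project WC (helper243): the extremal weakened convex function for m = 4 (MP_56f843_an)

Statements only; `NOTES.md` in this folder has the complete proofs.
-/

open Set Filter Topology

noncomputable section

namespace WC243

/-- the class for `m = 4`, without a boundedness condition -/
def WC (f : ℝ → ℝ) : Prop :=
  f 0 ≤ 0 ∧ f 1 ≤ 0 ∧ ∀ x₁ x₂ x₃ x₄ : ℝ, 0 ≤ x₁ → x₁ ≤ x₂ → x₂ ≤ x₃ → x₃ ≤ x₄ → x₄ ≤ 1 →
    f ((x₁ + x₂ + x₃ + x₄) / 4) ≤ (f x₁ + f x₂ + f x₃ + f x₄) / 4 + (x₄ - x₁)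

/-- bounded above on `[0,1]` -/
def BA (f : ℝ → ℝ) : Prop := ∃ C : ℝ, ∀ x ∈ Icc (0 : ℝ) 1, f x ≤ C

/-- distance to the nearest integer -/
def dn (t : ℝ) : ℝ := |t - round t|

/-- the candidate, `16 * ∑_{k ≥ 1} 4^(-k) min(‖4^(k-1) x‖, 1/4)` -/
def G (x : ℝ) : ℝ := 16 * ∑' k : ℕ, (1 / 4 : ℝ) ^ (k + 1) * min (dn (4 ^ k * x)) (1 / 4)

/-- integer version on the grid `4^(-n) ℤ`: `V n a = 4^n G(a / 4^n)` -/
def V : ℕ → ℤ → ℤ
  | 0, _ => 0
  | n + 1, a => (4 - a % 4) * V n (a / 4) + (a % 4) * V n (a / 4 + 1) +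
      4 * (if a % 4 = 0 then 0 else 1)

/-- row `i` of the stacking matrix: the cyclic interval of length `r i` after the rows `j < i` -/
def E (r : Fin 4 → Fin 4) (i w : Fin 4) : ℤ :=
  if ((w : ℕ) + 16 - ∑ j : Fin 4, (if j < i then (r j : ℕ) else 0)) % 4 < (r i : ℕ) then 1 else 0

/-- FC1: the finite check, all four points in one cell -/
def S_FC1 : Prop := ∀ a b c d t s : ℤ, 0 ≤ a → a ≤ b → b ≤ c → c ≤ d → d ≤ 3 →
  a + b + c + d = 4 * t + s → 0 ≤ s → s ≤ 3 →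
  (4 - s) * (if t = 0 then 0 else 1) + s * (if t = 3 then 0 else 1) + (if s = 0 then 0 else 1) ≤
    (if a = 0 then 0 else 1) + (if b = 0 then 0 else 1) + (if c = 0 then 0 else 1) +
    (if d = 0 then 0 else 1) + (d - a)

/-- FC2: the finite check, points in different cells -/
def S_FC2 : Prop := ∀ (a b : Fin 4 → ℤ) (r : Fin 4 → Fin 4),
  (∀ i, a i = 4 * b i + (r i : ℕ)) → Monotone a → b 0 < b 3 →
  (∀ i, ∑ w, E r i w = (r i : ℕ)) ∧
  (∃ t s : ℤ, ∑ i, ((r i : ℕ) : ℤ) = 4 * t + s ∧ 0 ≤ s ∧ s ≤ 3 ∧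
    (∀ w, ∑ i, E r i w = t ∨ ∑ i, E r i w = t + 1) ∧
    ∃ m M : Fin 4 → ℤ, (∀ i w, m w ≤ b i + E r i w ∧ b i + E r i w ≤ M w) ∧
      (∑ w, (M w - m w)) + (if s = 0 then 0 else 1) ≤
        (a 3 - a 0) + ∑ i, (if r i = 0 then 0 else 1))

/-- IN: the integer inequality -/
def S_IN : Prop := ∀ (n : ℕ) (a : Fin 4 → ℤ), Monotone a →
  V (n + 1) (∑ i, a i) ≤ ∑ i, V n (a i) + 4 * (a 3 - a 0)

/-- GV: the candidate on the grid -/
def S_GV : Prop := ∀ (n : ℕ) (a : ℤ), G (a / 4 ^ n) = V n a / 4 ^ n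

/-- GC: continuity -/
def S_GC : Prop := Continuous G

/-- GW: the candidate belongs to the class -/
def S_GW : Prop := WC G ∧ BA G

/-- UP: upper bound -/
def S_UP : Prop := ∀ f : ℝ → ℝ, WC f → BA f → ∀ x ∈ Icc (0 : ℝ) 1, f x ≤ G x

/-- HA: without a boundedness condition there is no upper bound at irrational points -/
def S_HA : Prop := ∀ x : ℝ, Irrational x → ∀ C : ℝ, ∃ f : ℝ → ℝ, WC f ∧ C < f x

end WC243
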