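import Pool.Agent.R243.WC.GE

/-!
# Project WL (helper243): the limit of `F_m` as `m → ∞` (MP_56f843_an)

Statements only; `NOTES2.md` in this folder has the complete proofs.
-/

open Set Filter Topology

noncomputable section

namespace WC243

/-- `φ(x) = inf_{k ≥ 1} k x^{1 - 1/k}` (index `k + 1`) -/
def phi (x : ℝ) : ℝ := ⨅ k : ℕ, ((k : ℝ) + 1) * x ^ ((k : ℝ) / ((k : ℝ) + 1))

/-- the limit function -/
def LL (x : ℝ) : ℝ := min (phi x) (phi (1 - x))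

/-- PH: basic facts on `φ` -/
def S_PH : Prop := phi 0 = 0 ∧ (∀ x, 1 / 4 ≤ x → x ≤ 1 → phi x = 1) ∧
  (∀ x, 0 ≤ x → ∀ k : ℕ, phi x ≤ ((k : ℝ) + 1) * x ^ ((k : ℝ) / ((k : ℝ) + 1))) ∧
  (∀ x, 0 ≤ x → x ≤ 1 → 0 ≤ phi x ∧ phi x ≤ 1 ∧ phi x ≤ 2 * √x) ∧
  ConcaveOn ℝ (Ici 0) phi

/-- PA: comparison through the arithmetic-geometric mean inequality -/
def S_PA : Prop := ∀ x b, 0 < x → x ≤ b → b ≤ 1 → phi x ≤ (x / b) * phi b + b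

/-- PB: the second comparison -/
def S_PB : Prop := ∀ x b, 0 < x → x ≤ b → b ≤ 1 → b ≤ 2 * x →
  phi x ≤ (x / b) * phi b + 4 * x * (b - x) / b

/-- CD: chords of `φ` -/
def S_CD : Prop := ∀ a b x, 0 ≤ a → a < x → x < b → b ≤ 1 →
  phi x ≤ ((b - x) * phi a + (x - a) * phi b) / (b - a) + (b - a)

/-- CL: chords of the limit function -/
def S_CL : Prop := ∀ a b x, 0 ≤ a → a < x → x < b → b ≤ 1 →
  LL x ≤ ((b - x) * LL a + (x - a) * LL b) / (b - a) + (b - a)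

/-- ML: the limit function belongs to all classes -/
def S_ML : Prop := ∀ m : ℕ, 1 ≤ m → WCm m LL

/-- UB: a universal bound -/
def S_UB : Prop := ∀ (m : ℕ) (f : ℝ → ℝ), 2 ≤ m → WCm m f → BA f → ∀ x ∈ Icc (0 : ℝ) 1, f x ≤ 2

/-- SP: one step -/
def S_SP : Prop := ∀ (m j : ℕ) (f : ℝ → ℝ) (y : ℝ), WCm m f → 1 ≤ j → j ≤ m → 0 ≤ y → y ≤ 1 →
  f ((j : ℝ) / m * y) ≤ (j : ℝ) / m * f y + y

/-- SQ: one step from the right end -/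
def S_SQ : Prop := ∀ (m j : ℕ) (f : ℝ → ℝ) (y : ℝ), WCm m f → 1 ≤ j → j ≤ m → 0 ≤ y → y ≤ 1 →
  f (1 - (j : ℝ) / m * y) ≤ (j : ℝ) / m * f (1 - y) + y

/-- LM: upper bound in the limit -/
def S_LM : Prop := ∀ x ∈ Icc (0 : ℝ) 1, ∀ ε > 0, ∃ N : ℕ, ∀ m ≥ N, ∀ f : ℝ → ℝ,
  WCm m f → BA f → f x ≤ LL x + ε

end WC243
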