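import Pool.Agent.R243.WC.Defs

/-! # Project WC: the two finite combinatorial checks FC1 and FC2 -/

set_option autoImplicit false

namespace WC243

namespace FCaux

/-- indicator of an upper jump in column `w` -/
def Uf (r : Fin 4 → Fin 4) (q1 q2 : Bool) (w : Fin 4) : ℤ :=
  if (E r 3 w = 1 ∨ (q2 = true ∧ E r 2 w = 1) ∨ (q1 = true ∧ E r 1 w = 1)) then 1 else 0

/-- indicator of a lower jump in column `w` -/
def Lf (r : Fin 4 → Fin 4) (p1 p2 : Bool) (w : Fin 4) : ℤ :=
  if (E r 0 w = 1 ∧ (p1 = true → E r 1 w = 1) ∧ (p2 = true → E r 2 w = 1)) then 1 else 0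

set_option maxRecDepth 100000 in
lemma rows : ∀ r0 r1 r2 r3 : Fin 4, ∀ i : Fin 4,
    ∑ w, E ![r0, r1, r2, r3] i w = ((![r0, r1, r2, r3] i : Fin 4) : ℕ) := by
  decide +kernel

set_option maxRecDepth 100000 in
lemma cols : ∀ r0 r1 r2 r3 : Fin 4, ∀ w : Fin 4,
    ∑ i, E ![r0, r1, r2, r3] i w = (((r0 : ℕ) + r1 + r2 + r3 : ℕ) : ℤ) / 4 ∨
    ∑ i, E ![r0, r1, r2, r3] i w = (((r0 : ℕ) + r1 + r2 + r3 : ℕ) : ℤ) / 4 + 1 := by
  decide +kernel

set_option maxRecDepth 100000 in
lemma key : ∀ r0 r1 r2 r3 : Fin 4, ∀ p1 p2 q1 q2 : Bool,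
    (p2 = true → p1 = true) → (q1 = true → q2 = true) →
    ¬ (p1 = true ∧ q1 = true) → ¬ (p2 = true ∧ q2 = true) →
    (p1 = true → r0 ≤ r1) → (p2 = true → r1 ≤ r2) → (q1 = true → r1 ≤ r2) →
    (q2 = true → r2 ≤ r3) →
    (∑ w, (Uf ![r0, r1, r2, r3] q1 q2 w - Lf ![r0, r1, r2, r3] p1 p2 w)) +
      (if (((r0 : ℕ) + r1 + r2 + r3 : ℕ) : ℤ) % 4 = 0 then 0 else 1) ≤
      (((r3 : ℕ) : ℤ) - ((r0 : ℕ) : ℤ)) + ((if r0 = 0 then 0 else 1) + (if r1 = 0 then 0 else 1) +
        (if r2 = 0 then 0 else 1) + (if r3 = 0 then 0 else 1)) := by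
  decide +kernel

lemma E01 (r : Fin 4 → Fin 4) (i w : Fin 4) : E r i w = 0 ∨ E r i w = 1 := by
  unfold E
  split_ifs
  · right; rfl
  · left; rfl

end FCaux

open FCaux in
/-- FC1 -/
theorem t_FC1 : S_FC1 := by
  intro a b c d t s ha hab hbc hcd hd h hs0 hs3
  have ht : t = (a + b + c + d) / 4 := by omega
  have hs : s = (a + b + c + d) % 4 := by omega
  subst ht hs
  clear h hs0 hs3
  have ha3 : a ≤ 3 := by omega
  have hb3 : b ≤ 3 := by omega
  have hc3 : c ≤ 3 := by omega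
  have hb0 : 0 ≤ b := by omega
  have hc0 : 0 ≤ c := by omega
  have hd0 : 0 ≤ d := by omega
  interval_cases a <;> interval_cases b <;> interval_cases c <;> interval_cases d <;> decide

open FCaux in
/-- FC2 -/
theorem t_FC2 : S_FC2 := by
  intro a b r har hmono hb
  have hr : r = ![r 0, r 1, r 2, r 3] := by
    ext i; fin_cases i <;> rfl
  have h01 : a 0 ≤ a 1 := hmono (by decide)
  have h12 : a 1 ≤ a 2 := hmono (by decide)
  have h23 : a 2 ≤ a 3 := hmono (by decide)
  have e0 := har 0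
  have e1 := har 1
  have e2 := har 2
  have e3 := har 3
  have l0 := (r 0).isLt
  have l1 := (r 1).isLt
  have l2 := (r 2).isLt
  have l3 := (r 3).isLt
  have b01 : b 0 ≤ b 1 := by omega
  have b12 : b 1 ≤ b 2 := by omega
  have b23 : b 2 ≤ b 3 := by omega
  refine ⟨?_, ?_⟩
  · intro i
    have := rows (r 0) (r 1) (r 2) (r 3) i
    rw [← hr] at this
    exact this
  refine ⟨(((r 0 : ℕ) + r 1 + r 2 + r 3 : ℕ) : ℤ) / 4, (((r 0 : ℕ) + r 1 + r 2 + r 3 : ℕ) : ℤ) % 4,
    ?_, ?_, ?_, ?_, ?_⟩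
  · rw [Fin.sum_univ_four]
    push_cast
    omega
  · omega
  · omega
  · intro w
    have := cols (r 0) (r 1) (r 2) (r 3) w
    rw [← hr] at this
    exact this
  refine ⟨fun w => b 0 + Lf r (decide (b 1 = b 0)) (decide (b 2 = b 0)) w,
    fun w => b 3 + Uf r (decide (b 1 = b 3)) (decide (b 2 = b 3)) w, ?_, ?_⟩
  · intro i w
    have E0 := E01 r 0 w
    have E1 := E01 r 1 w
    have E2 := E01 r 2 w
    have E3 := E01 r 3 w
    simp only [Lf, Uf, decide_eq_true_eq]
    fin_cases i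
    · simp only [Fin.zero_eta, Fin.isValue]
      split_ifs <;> constructor <;> omega
    · simp only [Fin.mk_one, Fin.isValue]
      split_ifs <;> constructor <;> omega
    · simp only [Fin.reduceFinMk, Fin.isValue]
      split_ifs <;> constructor <;> omega
    · simp only [Fin.reduceFinMk, Fin.isValue]
      split_ifs <;> constructor <;> omega
  · have hk := key (r 0) (r 1) (r 2) (r 3) (decide (b 1 = b 0)) (decide (b 2 = b 0))
      (decide (b 1 = b 3)) (decide (b 2 = b 3))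
      (by simp only [decide_eq_true_eq]; omega) (by simp only [decide_eq_true_eq]; omega)
      (by simp only [decide_eq_true_eq]; omega) (by simp only [decide_eq_true_eq]; omega)
      (by simp only [decide_eq_true_eq, Fin.le_def]; omega)
      (by simp only [decide_eq_true_eq, Fin.le_def]; omega)
      (by simp only [decide_eq_true_eq, Fin.le_def]; omega)
      (by simp only [decide_eq_true_eq, Fin.le_def]; omega)
    rw [← hr] at hk
    rw [Fin.sum_univ_four (f := fun i => if r i = 0 then (0 : ℤ) else 1)]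
    rw [Fin.sum_univ_four] at hk ⊢
    simp only at hk ⊢
    omega

end WC243
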