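import Pool.Agent.R243.WC.Defs

/-!
# WC-GC: continuity of the series
-/

open Set Filter Topology

namespace WC243

namespace GCaux

theorem dn_cont : Continuous dn := by
  have h : dn = fun t : ℝ => ‖((t : ℝ) : UnitAddCircle)‖ := by
    funext t
    exact (UnitAddCircle.norm_eq).symm
  rw [h]
  exact continuous_norm.comp (AddCircle.continuous_mk' 1)

theorem dn_nonneg (t : ℝ) : 0 ≤ dn t := abs_nonneg _

end GCaux

open GCaux in
theorem t_GC : S_GC := by
  unfold S_GC
  have hG : G = fun x => 16 * ∑' k : ℕ, (1 / 4 : ℝ) ^ (k + 1) * min (dn (4 ^ k * x)) (1 / 4) := rfl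
  rw [hG]
  refine continuous_const.mul ?_
  refine continuous_tsum (u := fun k : ℕ => (1 / 4 : ℝ) ^ k) ?_ ?_ ?_
  · intro k
    exact continuous_const.mul ((dn_cont.comp (continuous_const.mul continuous_id)).min
      continuous_const)
  · exact summable_geometric_of_lt_one (by norm_num) (by norm_num)
  · intro k x
    have h0 : 0 ≤ min (dn (4 ^ k * x)) (1 / 4) := le_min (dn_nonneg _) (by norm_num)
    have h1 : min (dn (4 ^ k * x)) (1 / 4) ≤ 1 / 4 := min_le_right _ _
    have hp : (0 : ℝ) < (1 / 4) ^ k := by positivity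
    rw [Real.norm_eq_abs, abs_of_nonneg (by positivity), pow_succ]
    nlinarith

end WC243
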