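import Pool.Agent.R243.WC.Defs

/-!
# Project WC: general `m`; the formula fails for every `m ≥ 5`
-/

open Set Filter Topology

noncomputable section

namespace WC243

/-- the class for general `m`, without a boundedness condition -/
def WCm (m : ℕ) (f : ℝ → ℝ) : Prop :=
  f 0 ≤ 0 ∧ f 1 ≤ 0 ∧ ∀ x : ℕ → ℝ, Monotone x → (∀ i, x i ∈ Icc (0 : ℝ) 1) →
    f ((∑ i ∈ Finset.range m, x i) / m) ≤
      (∑ i ∈ Finset.range m, f (x i)) / m + (x (m - 1) - x 0)

/-- the formula for general `m` -/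
def Gm (m : ℕ) (x : ℝ) : ℝ :=
  (m : ℝ) ^ 2 * ∑' k : ℕ, (1 / (m : ℝ)) ^ (k + 1) * min (dn ((m : ℝ) ^ k * x)) (1 / m)

theorem Gm_four (x : ℝ) : Gm 4 x = G x := by
  unfold Gm G
  norm_num

theorem WCm_four (f : ℝ → ℝ) : WCm 4 f ↔ WC f := by
  constructor
  · rintro ⟨h0, h1, h⟩
    refine ⟨h0, h1, ?_⟩
    intro x₁ x₂ x₃ x₄ h₁ h₂ h₃ h₄ h₅
    have := h (fun i => if i = 0 then x₁ else if i = 1 then x₂ else if i = 2 then x₃ else x₄) ?_ ?_
    · simpa [Finset.sum_range_succ] using this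
    · apply monotone_nat_of_le_succ
      intro n
      rcases n with _ | _ | _ | n <;> simp <;> linarith
    · intro i
      rcases i with _ | _ | _ | n <;> simp <;> constructor <;> linarith
  · rintro ⟨h0, h1, h⟩
    refine ⟨h0, h1, ?_⟩
    intro x hx hx1
    have := h (x 0) (x 1) (x 2) (x 3) (hx1 0).1 (hx (by norm_num)) (hx (by norm_num))
      (hx (by norm_num)) (hx1 3).2
    simpa [Finset.sum_range_succ] using this

theorem two_step {k : ℕ} {f : ℝ → ℝ} (h : WCm (k + 2) f) {c : ℝ} (hc : 0 ≤ c) (hc1 : c ≤ 1) :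
    f (2 * c / (k + 2)) ≤ 2 * f c / (k + 2) + c := by
  obtain ⟨h0, _, h⟩ := h
  have key := h (fun i => if i < k then 0 else c) ?_ ?_
  · have e1 : (∑ i ∈ Finset.range (k + 2), (if i < k then (0 : ℝ) else c)) = 2 * c := by
      rw [Finset.sum_range_succ, Finset.sum_range_succ,
        Finset.sum_congr rfl (g := fun _ => (0 : ℝ))
          (fun i hi => by rw [if_pos (Finset.mem_range.1 hi)])]
      simp
      ring
    have e2 : (∑ i ∈ Finset.range (k + 2), f (if i < k then (0 : ℝ) else c)) ≤ 2 * f c := by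
      rw [Finset.sum_range_succ, Finset.sum_range_succ,
        Finset.sum_congr rfl (g := fun _ => f 0)
          (fun i hi => by rw [if_pos (Finset.mem_range.1 hi)])]
      simp
      nlinarith [mul_nonpos_of_nonneg_of_nonpos (Nat.cast_nonneg (α := ℝ) k) h0]
    have e3 : (if k + 2 - 1 < k then (0 : ℝ) else c) - (if 0 < k then (0 : ℝ) else c) ≤ c := by
      rw [if_neg (by omega)]
      split_ifs <;> linarith
    have e4 : ((k + 2 : ℕ) : ℝ) = (k : ℝ) + 2 := by push_cast; ring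
    simp only [e1, e4] at key
    have hk : (0 : ℝ) < (k : ℝ) + 2 := by positivity
    have e5 : (∑ i ∈ Finset.range (k + 2), f (if i < k then (0 : ℝ) else c)) / ((k : ℝ) + 2) ≤
        2 * f c / (k + 2) := div_le_div_of_nonneg_right e2 hk.le
    linarith
  · intro i j hij
    show (if i < k then (0 : ℝ) else c) ≤ if j < k then (0 : ℝ) else c
    split_ifs with h1 h2 h2
    · exact le_rfl
    · exact hc
    · omega
    · exact le_rfl
  · intro i
    show (if i < k then (0 : ℝ) else c) ∈ Icc (0 : ℝ) 1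
    split_ifs
    · exact ⟨le_rfl, zero_le_one⟩
    · exact ⟨hc, hc1⟩

theorem dn_int (j : ℤ) : dn (j : ℝ) = 0 := by
  unfold dn
  simp

theorem dn_small {t : ℝ} (h0 : 0 ≤ t) (h1 : t < 1 / 2) : dn t = t := by
  unfold dn
  have : round t = 0 := by
    rw [round_eq_zero_iff]
    constructor <;> linarith
  rw [this]
  simp [abs_of_nonneg h0]

theorem dn_ge {t : ℝ} {d : ℝ} (h0 : d ≤ t) (h1 : t ≤ 1 - d) : d ≤ dn t := by
  unfold dn
  rcases le_or_gt (round t) 0 with h | h
  · have : ((round t : ℤ) : ℝ) ≤ 0 := by exact_mod_cast h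
    have := le_abs_self (t - round t)
    linarith
  · have : (1 : ℝ) ≤ ((round t : ℤ) : ℝ) := by exact_mod_cast h
    have := neg_abs_le (t - round t)
    linarith

theorem Gm_value {m : ℕ} (hm : 5 ≤ m) : Gm m (4 / (m : ℝ) ^ 2) = 5 / m := by
  have hm5 : (5 : ℝ) ≤ m := by exact_mod_cast hm
  have hm0 : (0 : ℝ) < m := by linarith
  unfold Gm
  rw [tsum_eq_sum (s := Finset.range 2)]
  · rw [Finset.sum_range_succ, Finset.sum_range_one]
    have h1 : dn ((m : ℝ) ^ 0 * (4 / (m : ℝ) ^ 2)) = 4 / (m : ℝ) ^ 2 := by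
      rw [pow_zero, one_mul]
      apply dn_small (by positivity)
      rw [div_lt_div_iff₀ (by positivity) (by norm_num)]
      nlinarith
    have h2 : min (4 / (m : ℝ) ^ 2) (1 / (m : ℝ)) = 4 / (m : ℝ) ^ 2 := by
      apply min_eq_left
      rw [div_le_div_iff₀ (by positivity) hm0]
      nlinarith
    have h3 : (m : ℝ) ^ 1 * (4 / (m : ℝ) ^ 2) = 4 / m := by field_simp
    have h4 : min (dn ((m : ℝ) ^ 1 * (4 / (m : ℝ) ^ 2))) (1 / (m : ℝ)) = 1 / m := by
      apply min_eq_right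
      rw [h3]
      apply dn_ge
      · exact div_le_div_of_nonneg_right (by norm_num) hm0.le
      · rw [le_sub_iff_add_le, ← add_div, div_le_one hm0]
        linarith
    have hne : (m : ℝ) ≠ 0 := hm0.ne'
    rw [h1, h2, h4, show (1 / (m : ℝ)) ^ (0 + 1) = 1 / m by rw [zero_add, pow_one],
      show (1 / (m : ℝ)) ^ (1 + 1) = 1 / m ^ 2 by rw [one_div_pow]]
    field_simp
    norm_num
  · intro k hk
    have hk2 : 2 ≤ k := by
      by_contra h
      exact hk (Finset.mem_range.2 (by omega))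
    obtain ⟨j, rfl⟩ := Nat.exists_eq_add_of_le hk2
    have : (m : ℝ) ^ (2 + j) * (4 / (m : ℝ) ^ 2) = ((4 * (m : ℤ) ^ j : ℤ) : ℝ) := by
      push_cast
      field_simp
      ring
    rw [this, dn_int]
    rw [min_eq_left (by positivity), mul_zero]

/-- every function of the class is at most `4/m` at `4/m²`, where the formula gives `5/m` -/
theorem fails {m : ℕ} (hm : 5 ≤ m) : Gm m (4 / (m : ℝ) ^ 2) = 5 / m ∧
    ∀ f, WCm m f → f (4 / (m : ℝ) ^ 2) ≤ 4 / m := by
  refine ⟨Gm_value hm, ?_⟩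
  intro f hf
  obtain ⟨k, rfl⟩ := Nat.exists_eq_add_of_le (show 2 ≤ m by omega)
  rw [add_comm 2 k] at hf ⊢
  have e4 : ((k + 2 : ℕ) : ℝ) = (k : ℝ) + 2 := by push_cast; ring
  rw [e4]
  have hk : (0 : ℝ) < (k : ℝ) + 2 := by positivity
  have h1 := two_step hf zero_le_one le_rfl
  have h2 := two_step hf (c := 2 / (k + 2)) (by positivity) (by
    rw [div_le_one hk]; linarith [Nat.cast_nonneg (α := ℝ) k])
  have hf1 : f 1 ≤ 0 := hf.2.1
  have h3 : f (2 / ((k : ℝ) + 2)) ≤ 1 := by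
    have : 2 * f 1 / ((k : ℝ) + 2) ≤ 0 := div_nonpos_of_nonpos_of_nonneg (by linarith) hk.le
    rw [mul_one] at h1
    linarith
  have h4 : 2 * f (2 / ((k : ℝ) + 2)) / ((k : ℝ) + 2) ≤ 2 / ((k : ℝ) + 2) :=
    div_le_div_of_nonneg_right (by linarith) hk.le
  have e : 2 * (2 / ((k : ℝ) + 2)) / ((k : ℝ) + 2) = 4 / ((k : ℝ) + 2) ^ 2 := by
    field_simp
    norm_num
  rw [e] at h2
  have e' : (4 : ℝ) / ((k : ℝ) + 2) = 2 / ((k : ℝ) + 2) + 2 / ((k : ℝ) + 2) := by
    rw [← add_div]; norm_num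
  rw [e']
  linarith

end WC243
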