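import Pool.Agent.R243.WC.Defs

/-!
# WC-GV: the value of the series on the grid
-/

set_option autoImplicit false

namespace WC243

namespace GVaux

/-- `min (dn t) (1/4)` -/
noncomputable def mu (t : ℝ) : ℝ := min (dn t) (1 / 4)

theorem dn_eq (t : ℝ) : dn t = min (Int.fract t) (1 - Int.fract t) := abs_sub_round_eq_min t

theorem mu_add_int (t : ℝ) (j : ℤ) : mu (j + t) = mu t := by
  unfold mu
  rw [dn_eq, dn_eq, Int.fract_intCast_add]

theorem mu_int (j : ℤ) : mu j = 0 := by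
  unfold mu
  rw [dn_eq, Int.fract_intCast]
  norm_num

theorem dn_unit {u : ℝ} (h0 : 0 ≤ u) (h1 : u ≤ 1) : dn u = min u (1 - u) := by
  rcases lt_or_eq_of_le h1 with h | h
  · rw [dn_eq, Int.fract_eq_self.2 ⟨h0, h⟩]
  · rw [dn_eq, h]
    norm_num

theorem mu1 {u : ℝ} (h0 : 0 ≤ u) (h1 : u ≤ 1 / 4) : mu u = u := by
  unfold mu
  rw [dn_unit h0 (by linarith), min_eq_left (by linarith : u ≤ 1 - u), min_eq_left h1]

theorem mu2 {u : ℝ} (h0 : 1 / 4 ≤ u) (h1 : u ≤ 3 / 4) : mu u = 1 / 4 := by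
  unfold mu
  rw [dn_unit (by linarith) (by linarith), min_eq_right]
  exact le_min h0 (by linarith)

theorem mu3 {u : ℝ} (h0 : 3 / 4 ≤ u) (h1 : u ≤ 1) : mu u = 1 - u := by
  unfold mu
  rw [dn_unit (by linarith) h1, min_eq_right (by linarith : 1 - u ≤ u),
    min_eq_left (by linarith)]

/-- `mu (. / 4 ^ (k + 1))` is affine between consecutive integers -/
theorem affine (k : ℕ) (x : ℤ) (s : ℝ) (h0 : 0 ≤ s) (h1 : s ≤ 1) :
    mu ((x + s) / 4 ^ (k + 1)) =
      (1 - s) * mu (x / 4 ^ (k + 1)) + s * mu ((x + 1) / 4 ^ (k + 1)) := by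
  set q : ℤ := 4 ^ k with hq
  have hq0 : 0 < q := by positivity
  have hqr : (0 : ℝ) < q := by exact_mod_cast hq0
  have e4 : (4 : ℝ) ^ (k + 1) = 4 * q := by
    rw [pow_succ, hq]
    push_cast
    ring
  set m : ℤ := x % (4 * q) with hm
  set j : ℤ := x / (4 * q) with hj
  have hm0 : 0 ≤ m := Int.emod_nonneg _ (by positivity)
  have hm1 : m < 4 * q := Int.emod_lt_of_pos _ (by positivity)
  have hx : x = 4 * q * j + m := (Int.mul_ediv_add_emod x (4 * q)).symm
  have hxr : (x : ℝ) = 4 * q * j + m := by exact_mod_cast hx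
  have hmr : (0 : ℝ) ≤ m := by exact_mod_cast hm0
  have hmr1 : (m : ℝ) + 1 ≤ 4 * q := by exact_mod_cast hm1
  have red : ∀ t : ℝ, mu ((x + t) / 4 ^ (k + 1)) = mu ((m + t) / (4 * q)) := by
    intro t
    have e : ((x : ℝ) + t) / 4 ^ (k + 1) = j + (m + t) / (4 * q) := by
      rw [e4, hxr]
      field_simp
      ring
    rw [e, mu_add_int]
  have r0 := red 0
  rw [add_zero, add_zero] at r0
  rw [red s, red 1, r0]
  have hpos : (0 : ℝ) < 4 * q := by positivity
  by_cases c1 : m + 1 ≤ q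
  · have c1r : (m : ℝ) + 1 ≤ q := by exact_mod_cast c1
    have t : ∀ v : ℝ, 0 ≤ v → v ≤ 1 → mu ((m + v) / (4 * q)) = (m + v) / (4 * q) := by
      intro v hv hv1
      apply mu1
      · positivity
      · rw [div_le_iff₀ hpos]
        linarith
    have t0 := t 0 le_rfl zero_le_one
    rw [add_zero] at t0
    rw [t s h0 h1, t 1 zero_le_one le_rfl, t0]
    ring
  · have c1' : q ≤ m := by omega
    have c1r : (q : ℝ) ≤ m := by exact_mod_cast c1'
    by_cases c2 : m + 1 ≤ 3 * q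
    · have c2r : (m : ℝ) + 1 ≤ 3 * q := by exact_mod_cast c2
      have t : ∀ v : ℝ, 0 ≤ v → v ≤ 1 → mu ((m + v) / (4 * q)) = 1 / 4 := by
        intro v hv hv1
        apply mu2
        · rw [le_div_iff₀ hpos]
          linarith
        · rw [div_le_iff₀ hpos]
          linarith
      have t0 := t 0 le_rfl zero_le_one
      rw [add_zero] at t0
      rw [t s h0 h1, t 1 zero_le_one le_rfl, t0]
      ring
    · have c2' : 3 * q ≤ m := by omega
      have c2r : (3 : ℝ) * q ≤ m := by exact_mod_cast c2'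
      have t : ∀ v : ℝ, 0 ≤ v → v ≤ 1 → mu ((m + v) / (4 * q)) = 1 - (m + v) / (4 * q) := by
        intro v hv hv1
        apply mu3
        · rw [le_div_iff₀ hpos]
          linarith
        · rw [div_le_iff₀ hpos]
          linarith
      have t0 := t 0 le_rfl zero_le_one
      rw [add_zero] at t0
      rw [t s h0 h1, t 1 zero_le_one le_rfl, t0]
      ring

theorem mu_nonneg (t : ℝ) : 0 ≤ mu t := by
  unfold mu dn
  exact le_min (abs_nonneg _) (by norm_num)

theorem mu_le (t : ℝ) : mu t ≤ 1 / 4 := min_le_right _ _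

theorem summ (x : ℝ) : Summable fun k : ℕ => (1 / 4 : ℝ) ^ (k + 1) * mu (4 ^ k * x) := by
  have h1 : Summable fun k : ℕ => (1 / 4 : ℝ) ^ k :=
    summable_geometric_of_lt_one (by norm_num) (by norm_num)
  refine Summable.of_nonneg_of_le (fun k => mul_nonneg (by positivity) (mu_nonneg _))
    (fun k => ?_) h1
  rw [pow_succ]
  have h2 : (0 : ℝ) < (1 / 4) ^ k := by positivity
  have h3 := mu_nonneg (4 ^ k * x)
  have h4 := mu_le (4 ^ k * x)
  nlinarith

theorem G_fe (x : ℝ) : G x = 4 * mu x + G (4 * x) / 4 := by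
  have e : ∀ y : ℝ, G y = 16 * ∑' k : ℕ, (1 / 4 : ℝ) ^ (k + 1) * mu (4 ^ k * y) := fun y => rfl
  rw [e x, e (4 * x), (summ x).tsum_eq_zero_add]
  have h1 : ∀ k : ℕ, (1 / 4 : ℝ) ^ (k + 1 + 1) * mu (4 ^ (k + 1) * x) =
      1 / 4 * ((1 / 4 : ℝ) ^ (k + 1) * mu (4 ^ k * (4 * x))) := by
    intro k
    have : (4 : ℝ) ^ (k + 1) * x = 4 ^ k * (4 * x) := by ring
    rw [this]
    ring
  simp only [h1]
  rw [tsum_mul_left]
  norm_num
  ring

theorem G_int (a : ℤ) : G a = 0 := by
  have e : ∀ y : ℝ, G y = 16 * ∑' k : ℕ, (1 / 4 : ℝ) ^ (k + 1) * mu (4 ^ k * y) := fun y => rfl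
  rw [e]
  have h1 : ∀ k : ℕ, (1 / 4 : ℝ) ^ (k + 1) * mu (4 ^ k * (a : ℝ)) = 0 := by
    intro k
    have : (4 : ℝ) ^ k * (a : ℝ) = ((4 ^ k * a : ℤ) : ℝ) := by push_cast; ring
    rw [this, mu_int, mul_zero]
  simp only [h1, tsum_zero, mul_zero]

theorem V_succ (n : ℕ) (a : ℤ) : V (n + 1) a = (4 - a % 4) * V n (a / 4) +
    (a % 4) * V n (a / 4 + 1) + 4 * (if a % 4 = 0 then 0 else 1) := rfl

theorem claim (n : ℕ) : ∀ a : ℤ, (V (n + 1) a : ℝ) = V n a + 4 ^ (n + 2) * mu (a / 4 ^ (n + 1)) := by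
  induction n with
  | zero =>
    intro a
    have h0 : ∀ a, V 0 a = 0 := fun _ => rfl
    rw [V_succ, h0, h0, h0]
    set r : ℤ := a % 4 with hr
    set x : ℤ := a / 4 with hx
    have ha : a = 4 * x + r := (Int.mul_ediv_add_emod a 4).symm
    have e : (a : ℝ) / 4 ^ (0 + 1) = x + r / 4 := by
      rw [ha]
      push_cast
      ring
    rw [e, mu_add_int]
    have hr0 : 0 ≤ r := Int.emod_nonneg _ (by norm_num)
    have hr1 : r < 4 := Int.emod_lt_of_pos _ (by norm_num)
    have hc : r = 0 ∨ r = 1 ∨ r = 2 ∨ r = 3 := by omega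
    rcases hc with h | h | h | h <;> rw [h]
    · have : mu (((0 : ℤ) : ℝ) / 4) = 0 := by
        rw [mu1 (by norm_num) (by norm_num)]
        norm_num
      rw [this]
      norm_num
    · rw [mu2 (by norm_num) (by norm_num)]
      norm_num
    · rw [mu2 (by norm_num) (by norm_num)]
      norm_num
    · rw [mu2 (by norm_num) (by norm_num)]
      norm_num
  | succ n ih =>
    intro a
    rw [V_succ (n + 1) a, V_succ n a]
    set r : ℤ := a % 4 with hr
    set x : ℤ := a / 4 with hx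
    have ha : a = 4 * x + r := (Int.mul_ediv_add_emod a 4).symm
    have har : (a : ℝ) = 4 * x + r := by exact_mod_cast ha
    have hr0 : 0 ≤ r := Int.emod_nonneg _ (by norm_num)
    have hr1 : r < 4 := Int.emod_lt_of_pos _ (by norm_num)
    have hr0r : (0 : ℝ) ≤ r := by exact_mod_cast hr0
    have hr1r : (r : ℝ) ≤ 4 := by exact_mod_cast hr1.le
    have hA := affine n x ((r : ℝ) / 4) (by positivity) (by linarith)
    have e : (a : ℝ) / 4 ^ (n + 1 + 1) = (x + r / 4) / 4 ^ (n + 1) := by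
      rw [har, pow_succ]
      field_simp
    rw [e, hA]
    have i1 := ih x
    have i2 := ih (x + 1)
    push_cast at i1 i2 ⊢
    rw [i1, i2]
    ring

end GVaux

open GVaux in
theorem t_GV : S_GV := by
  intro n
  induction n with
  | zero =>
    intro a
    have h0 : V 0 a = 0 := rfl
    rw [h0, pow_zero, div_one, G_int]
    simp
  | succ n ih =>
    intro a
    rw [G_fe]
    have e : 4 * ((a : ℝ) / 4 ^ (n + 1)) = a / 4 ^ n := by
      rw [pow_succ]
      field_simp
    rw [e, ih a, claim n a]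
    field_simp
    ring

end WC243
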