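import Pool.Agent.R243.WC.Defs

/-!
# WC-GW: from the grid to all reals by continuity
-/

open Set Filter Topology

namespace WC243

namespace GWaux

theorem floor_tendsto (x : ℝ) :
    Tendsto (fun n : ℕ => ((⌊(4 : ℝ) ^ n * x⌋ : ℤ) : ℝ) / 4 ^ n) atTop (𝓝 x) := by
  have hg : Tendsto (fun n : ℕ => (1 / 4 : ℝ) ^ n) atTop (𝓝 0) :=
    tendsto_pow_atTop_nhds_zero_of_lt_one (by norm_num) (by norm_num)
  have h1 : Tendsto (fun n : ℕ => x - (1 / 4 : ℝ) ^ n) atTop (𝓝 x) := by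
    simpa using tendsto_const_nhds.sub hg
  refine tendsto_of_tendsto_of_tendsto_of_le_of_le h1 tendsto_const_nhds ?_ ?_
  · intro n
    have hp : (0 : ℝ) < 4 ^ n := by positivity
    have hf := Int.lt_floor_add_one ((4 : ℝ) ^ n * x)
    show x - (1 / 4 : ℝ) ^ n ≤ ((⌊(4 : ℝ) ^ n * x⌋ : ℤ) : ℝ) / 4 ^ n
    rw [le_div_iff₀ hp, sub_mul, ← mul_pow]
    norm_num
    linarith
  · intro n
    have hp : (0 : ℝ) < 4 ^ n := by positivity
    have hf := Int.floor_le ((4 : ℝ) ^ n * x)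
    show ((⌊(4 : ℝ) ^ n * x⌋ : ℤ) : ℝ) / 4 ^ n ≤ x
    rw [div_le_iff₀ hp]
    linarith

end GWaux

open GWaux in
theorem t_GW (hIN : S_IN) (hGV : S_GV) (hGC : S_GC) : S_GW := by
  have hint : ∀ a : ℤ, G a = 0 := by
    intro a
    have := hGV 0 a
    simpa [V] using this
  refine ⟨⟨?_, ?_, ?_⟩, ?_⟩
  · have := hint 0
    simp only [Int.cast_zero] at this
    exact this.le
  · have := hint 1
    simp only [Int.cast_one] at this
    exact this.le
  · intro x₁ x₂ x₃ x₄ h0 h12 h23 h34 h1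
    let x : Fin 4 → ℝ := ![x₁, x₂, x₃, x₄]
    let a : ℕ → Fin 4 → ℤ := fun n i => ⌊(4 : ℝ) ^ n * x i⌋
    have hxm : Monotone x := by
      intro i j hij
      fin_cases i <;> fin_cases j <;> simp [x] at hij ⊢ <;> linarith
    have ham : ∀ n, Monotone (a n) := by
      intro n i j hij
      exact Int.floor_le_floor (mul_le_mul_of_nonneg_left (hxm hij) (by positivity))
    have hat : ∀ i, Tendsto (fun n => ((a n i : ℤ) : ℝ) / 4 ^ n) atTop (𝓝 (x i)) :=
      fun i => floor_tendsto (x i)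
    have hineq : ∀ n : ℕ, G (((a n 0 : ℝ) / 4 ^ n + (a n 1 : ℝ) / 4 ^ n + (a n 2 : ℝ) / 4 ^ n +
        (a n 3 : ℝ) / 4 ^ n) / 4) ≤
        (G ((a n 0 : ℝ) / 4 ^ n) + G ((a n 1 : ℝ) / 4 ^ n) + G ((a n 2 : ℝ) / 4 ^ n) +
          G ((a n 3 : ℝ) / 4 ^ n)) / 4 + ((a n 3 : ℝ) / 4 ^ n - (a n 0 : ℝ) / 4 ^ n) := by
      intro n
      have h := hIN n (a n) (ham n)
      rw [Fin.sum_univ_four, Fin.sum_univ_four] at h
      have hp : (0 : ℝ) < 4 ^ n := by positivity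
      have e1 : ((a n 0 : ℝ) / 4 ^ n + (a n 1 : ℝ) / 4 ^ n + (a n 2 : ℝ) / 4 ^ n +
        (a n 3 : ℝ) / 4 ^ n) / 4 = ((a n 0 + a n 1 + a n 2 + a n 3 : ℤ) : ℝ) / 4 ^ (n + 1) := by
        push_cast
        rw [pow_succ]
        field_simp
      rw [e1, hGV (n + 1), hGV n, hGV n, hGV n, hGV n]
      have h' : ((V (n + 1) (a n 0 + a n 1 + a n 2 + a n 3) : ℤ) : ℝ) ≤
          (V n (a n 0) + V n (a n 1) + V n (a n 2) + V n (a n 3) : ℤ) + 4 * (a n 3 - a n 0) := by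
        exact_mod_cast h
      push_cast at h'
      have e2 : (((V n (a n 0) : ℤ) : ℝ) / 4 ^ n + ((V n (a n 1) : ℤ) : ℝ) / 4 ^ n +
          ((V n (a n 2) : ℤ) : ℝ) / 4 ^ n + ((V n (a n 3) : ℤ) : ℝ) / 4 ^ n) / 4 +
          ((a n 3 : ℝ) / 4 ^ n - (a n 0 : ℝ) / 4 ^ n) =
          ((V n (a n 0) + V n (a n 1) + V n (a n 2) + V n (a n 3)) + 4 * ((a n 3 : ℝ) - a n 0)) /
            4 ^ (n + 1) := by
        rw [pow_succ]
        field_simp
      rw [e2]
      exact div_le_div_of_nonneg_right h' (by positivity)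
    have hc : Continuous G := hGC
    have t0 := hat 0
    have t1 := hat 1
    have t2 := hat 2
    have t3 := hat 3
    have L1 := (hc.tendsto ((x 0 + x 1 + x 2 + x 3) / 4)).comp
      ((((t0.add t1).add t2).add t3).div_const 4)
    have L2 := (((((hc.tendsto (x 0)).comp t0).add ((hc.tendsto (x 1)).comp t1)).add
      ((hc.tendsto (x 2)).comp t2)).add ((hc.tendsto (x 3)).comp t3)).div_const 4
    have L3 := L2.add (t3.sub t0)
    have := le_of_tendsto_of_tendsto' L1 L3 hineq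
    simpa [x] using this
  · obtain ⟨C, hC⟩ := (isCompact_Icc (a := (0 : ℝ)) (b := 1)).exists_bound_of_continuousOn
      hGC.continuousOn
    exact ⟨C, fun x hx => (le_abs_self _).trans (hC x hx)⟩

end WC243
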