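import Pool.Agent.R243.WC.Defs

/-!
# Project WC, piece HA: Hamel functions
-/

open Set Filter Topology

noncomputable section

namespace WC243

namespace HAaux

/-- A `ℚ`-linear function on `ℝ` with a zero at `1` and a nonzero value at `x`. -/
theorem exists_lin {x : ℝ} (hx : Irrational x) : ∃ L : ℝ →ₗ[ℚ] ℚ, L x ≠ 0 ∧ L 1 = 0 := by
  have h1 : x ∉ Submodule.span ℚ ({1} : Set ℝ) := by
    intro h
    obtain ⟨a, ha⟩ := Submodule.mem_span_singleton.1 h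
    apply hx
    refine ⟨a, ?_⟩
    rw [← ha, Rat.smul_def, mul_one]
  obtain ⟨L, hL1, hL2⟩ := Submodule.exists_le_ker_of_notMem h1
  exact ⟨L, hL1, hL2 (Submodule.mem_span_singleton_self 1)⟩

end HAaux

open HAaux in
/-- **HA.** -/
theorem t_HA : S_HA := by
  intro x hx C
  obtain ⟨L, hL1, hL2⟩ := exists_lin hx
  have hLx : ((L x : ℚ) : ℝ) ≠ 0 := by exact_mod_cast hL1
  refine ⟨fun y => (C + 1) / ((L x : ℚ) : ℝ) * ((L y : ℚ) : ℝ), ⟨?_, ?_, ?_⟩, ?_⟩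
  · beta_reduce
    rw [map_zero, Rat.cast_zero, mul_zero]
  · beta_reduce
    rw [hL2, Rat.cast_zero, mul_zero]
  · intro x₁ x₂ x₃ x₄ _ h12 h23 h34 _
    beta_reduce
    have h1 : (x₁ + x₂ + x₃ + x₄) / 4 = (1 / 4 : ℚ) • (x₁ + x₂ + x₃ + x₄) := by
      rw [Rat.smul_def]
      push_cast
      ring
    have h2 : L ((x₁ + x₂ + x₃ + x₄) / 4) = (1 / 4 : ℚ) * (L x₁ + L x₂ + L x₃ + L x₄) := by
      rw [h1, map_smul, map_add, map_add, map_add, smul_eq_mul]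
    rw [h2]
    push_cast
    have h3 : (C + 1) / ((L x : ℚ) : ℝ) * (1 / 4 * ((L x₁ : ℝ) + L x₂ + L x₃ + L x₄)) =
        ((C + 1) / ((L x : ℚ) : ℝ) * (L x₁ : ℝ) + (C + 1) / ((L x : ℚ) : ℝ) * (L x₂ : ℝ) +
          (C + 1) / ((L x : ℚ) : ℝ) * (L x₃ : ℝ) + (C + 1) / ((L x : ℚ) : ℝ) * (L x₄ : ℝ)) / 4 := by
      ring
    rw [h3]
    linarith
  · beta_reduce
    rw [div_mul_cancel₀ _ hLx]
    linarith

end WC243
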