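import Pool.Agent.R243.WC.Defs

/-!
# Project WC, piece IN: the integer inequality by induction
-/

open Finset

namespace WC243

namespace INaux

lemma V_succ (n : ℕ) (x r : ℤ) (h0 : 0 ≤ r) (h3 : r ≤ 3) :
    V (n + 1) (4 * x + r) =
      (4 - r) * V n x + r * V n (x + 1) + 4 * (if r = 0 then 0 else 1) := by
  have h1 : (4 * x + r) % 4 = r := by omega
  have h2 : (4 * x + r) / 4 = x := by omega
  simp only [V, h1, h2]

lemma V_succ' (n : ℕ) (x r : ℤ) (h0 : 0 ≤ r) (h3 : r ≤ 3) :
    V (n + 1) (4 * x + r + 1) =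
      (3 - r) * V n x + (r + 1) * V n (x + 1) + 4 * (if r = 3 then 0 else 1) := by
  by_cases h : r = 3
  · subst h
    have h4 := V_succ n (x + 1) 0 le_rfl (by norm_num)
    have e : 4 * x + 3 + 1 = 4 * (x + 1) + 0 := by ring
    rw [e, h4]
    simp
  · have h4 := V_succ n x (r + 1) (by omega) (by omega)
    have e : 4 * x + r + 1 = 4 * x + (r + 1) := by ring
    rw [e, h4, if_neg (by omega), if_neg h]
    ring

/-- the unsorted form -/
lemma unsorted (n : ℕ) (h : ∀ a : Fin 4 → ℤ, Monotone a →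
    V (n + 1) (∑ i, a i) ≤ ∑ i, V n (a i) + 4 * (a 3 - a 0))
    (c : Fin 4 → ℤ) (m M : ℤ) (hc : ∀ i, m ≤ c i ∧ c i ≤ M) :
    V (n + 1) (∑ i, c i) ≤ ∑ i, V n (c i) + 4 * (M - m) := by
  have hs := Tuple.monotone_sort c
  have h5 := h (c ∘ Tuple.sort c) hs
  have e1 : ∑ i, (c ∘ Tuple.sort c) i = ∑ i, c i := Equiv.sum_comp (Tuple.sort c) c
  have e2 : ∑ i, V n ((c ∘ Tuple.sort c) i) = ∑ i, V n (c i) :=
    Equiv.sum_comp (Tuple.sort c) (fun i => V n (c i))
  rw [e1, e2] at h5
  have h6 := (hc (Tuple.sort c 0)).1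
  have h7 := (hc (Tuple.sort c 3)).2
  simp only [Function.comp] at h5
  linarith

/-- base case -/
lemma base (a : Fin 4 → ℤ) (ha : Monotone a) :
    V 1 (∑ i, a i) ≤ ∑ i, V 0 (a i) + 4 * (a 3 - a 0) := by
  have h01 : a 0 ≤ a 1 := ha (by decide)
  have h12 : a 1 ≤ a 2 := ha (by decide)
  have h23 : a 2 ≤ a 3 := ha (by decide)
  have e : V 1 (∑ i, a i) = 4 * (if (∑ i, a i) % 4 = 0 then 0 else 1) := by
    simp [V]
  rw [e, Fin.sum_univ_four, Fin.sum_univ_four]
  have e0 : ∀ x : ℤ, V 0 x = 0 := fun x => rfl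
  simp only [e0]
  split_ifs <;> omega

lemma E01 (r : Fin 4 → Fin 4) (i w : Fin 4) : E r i w = 0 ∨ E r i w = 1 := by
  unfold E
  split_ifs <;> simp

/-- one row -/
lemma row (n : ℕ) (b : ℤ) (r : Fin 4 → Fin 4) (i : Fin 4)
    (hr : ∑ w, E r i w = ((r i : ℕ) : ℤ)) :
    ∑ w, V n (b + E r i w) = (4 - ((r i : ℕ) : ℤ)) * V n b + ((r i : ℕ) : ℤ) * V n (b + 1) := by
  have h : ∀ w, V n (b + E r i w) = V n b + E r i w * (V n (b + 1) - V n b) := by
    intro w
    rcases E01 r i w with h0 | h0 <;> rw [h0] <;> simp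
  simp only [h]
  rw [Finset.sum_add_distrib, ← Finset.sum_mul, hr]
  simp
  ring

/-- columns -/
lemma cols (n : ℕ) (B t s : ℤ) (k : Fin 4 → ℤ) (hk : ∀ w, k w = t ∨ k w = t + 1)
    (hs : ∑ w, k w = 4 * t + s) :
    ∑ w, V n (B + k w) = (4 - s) * V n (B + t) + s * V n (B + t + 1) := by
  have h : ∀ w, V n (B + k w) = V n (B + t) + (k w - t) * (V n (B + t + 1) - V n (B + t)) := by
    intro w
    rcases hk w with h0 | h0 <;> rw [h0]
    · simp
    · have : t + 1 - t = 1 := by ring
      rw [this, one_mul, ← add_assoc]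
      ring
  simp only [h]
  rw [Finset.sum_add_distrib, ← Finset.sum_mul, Finset.sum_sub_distrib, hs]
  simp
  ring

end INaux

open INaux

theorem t_IN (h1 : S_FC1) (h2 : S_FC2) : S_IN := by
  intro n
  induction n with
  | zero => exact base
  | succ n ih =>
    intro a ha
    have h01 : a 0 ≤ a 1 := ha (by decide)
    have h12 : a 1 ≤ a 2 := ha (by decide)
    have h23 : a 2 ≤ a 3 := ha (by decide)
    -- quotients and remainders
    have hr : ∀ i, ∃ r : Fin 4, a i = 4 * (a i / 4) + ((r : ℕ) : ℤ) := by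
      intro i
      refine ⟨⟨(a i % 4).toNat, by omega⟩, ?_⟩
      simp only
      omega
    choose r hr using hr
    set b : Fin 4 → ℤ := fun i => a i / 4 with hb
    have hab : ∀ i, a i = 4 * b i + ((r i : ℕ) : ℤ) := hr
    have hr0 : ∀ i, 0 ≤ ((r i : ℕ) : ℤ) := fun i => by positivity
    have hr3 : ∀ i, ((r i : ℕ) : ℤ) ≤ 3 := fun i => by
      have := (r i).isLt
      omega
    have hVa : ∀ i, V (n + 1) (a i) = (4 - ((r i : ℕ) : ℤ)) * V n (b i) +
        ((r i : ℕ) : ℤ) * V n (b i + 1) + 4 * (if ((r i : ℕ) : ℤ) = 0 then 0 else 1) := by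
      intro i
      rw [hab i]
      exact V_succ n (b i) _ (hr0 i) (hr3 i)
    by_cases hlt : b 0 < b 3
    · obtain ⟨hrow, t, s, hts, hs0, hs3, hcol, m, M, hmM, hfin⟩ := h2 a b r hab ha hlt
      have hsum : ∑ i, a i = 4 * (∑ i, b i + t) + s := by
        rw [Finset.sum_congr rfl (fun i _ => hab i), Finset.sum_add_distrib, ← Finset.mul_sum, hts]
        ring
      have hV : V (n + 1 + 1) (∑ i, a i) = (4 - s) * V (n + 1) (∑ i, b i + t) +
          s * V (n + 1) (∑ i, b i + t + 1) + 4 * (if s = 0 then 0 else 1) := by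
        rw [hsum]
        exact V_succ (n + 1) _ s hs0 hs3
      have hks : ∑ w, ∑ i, E r i w = 4 * t + s := by
        rw [Finset.sum_comm, ← hts]
        exact Finset.sum_congr rfl (fun i _ => hrow i)
      have hc := cols (n + 1) (∑ i, b i) t s (fun w => ∑ i, E r i w) hcol hks
      have hu : ∀ w, V (n + 1) (∑ i, b i + ∑ i, E r i w) ≤
          ∑ i, V n (b i + E r i w) + 4 * (M w - m w) := by
        intro w
        have := unsorted n ih (fun i => b i + E r i w) (m w) (M w) (fun i => hmM i w)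
        rwa [Finset.sum_add_distrib] at this
      have hus := Finset.sum_le_sum (fun w (_ : w ∈ (Finset.univ : Finset (Fin 4))) => hu w)
      rw [Finset.sum_add_distrib, Finset.sum_comm, ← Finset.mul_sum] at hus
      have hrows : ∑ i, ∑ w, V n (b i + E r i w) =
          ∑ i, (V (n + 1) (a i) - 4 * (if ((r i : ℕ) : ℤ) = 0 then 0 else 1)) := by
        refine Finset.sum_congr rfl (fun i _ => ?_)
        rw [row n (b i) r i (hrow i), hVa i]
        ring
      rw [hrows, Finset.sum_sub_distrib, ← Finset.mul_sum] at hus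
      have hif : ∀ i, (if ((r i : ℕ) : ℤ) = 0 then (0 : ℤ) else 1) = (if r i = 0 then 0 else 1) := by
        intro i
        by_cases h : r i = 0
        · simp [h]
        · rw [if_neg h, if_neg]
          intro h'
          apply h
          apply Fin.ext
          simpa using h'
      simp only [hif] at hus
      rw [hV]
      rw [← hc]
      linarith
    · -- all in one cell
      have hb01 : b 0 ≤ b 1 := Int.ediv_le_ediv (by norm_num) h01
      have hb12 : b 1 ≤ b 2 := Int.ediv_le_ediv (by norm_num) h12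
      have hb23 : b 2 ≤ b 3 := Int.ediv_le_ediv (by norm_num) h23
      have e1 : b 1 = b 0 := by omega
      have e2 : b 2 = b 0 := by omega
      have e3 : b 3 = b 0 := by omega
      have ha0 := hab 0
      have ha1 := hab 1
      have ha2 := hab 2
      have ha3 := hab 3
      rw [e1] at ha1
      rw [e2] at ha2
      rw [e3] at ha3
      have hv0 := hVa 0
      have hv1 := hVa 1
      have hv2 := hVa 2
      have hv3 := hVa 3
      rw [e1] at hv1
      rw [e2] at hv2
      rw [e3] at hv3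
      have q0 := hr0 0
      have q1 := hr0 1
      have q2 := hr0 2
      have q3 := hr0 3
      have p0 := hr3 0
      have p1 := hr3 1
      have p2 := hr3 2
      have p3 := hr3 3
      generalize b 0 = x at *
      generalize ((r 0 : ℕ) : ℤ) = r0 at *
      generalize ((r 1 : ℕ) : ℤ) = r1 at *
      generalize ((r 2 : ℕ) : ℤ) = r2 at *
      generalize ((r 3 : ℕ) : ℤ) = r3 at *
      obtain ⟨t, s, hts, hs0, hs3⟩ : ∃ t s : ℤ, r0 + r1 + r2 + r3 = 4 * t + s ∧ 0 ≤ s ∧ s ≤ 3 :=
        ⟨(r0 + r1 + r2 + r3) / 4, (r0 + r1 + r2 + r3) % 4, by omega, by omega, by omega⟩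
      have hf := h1 r0 r1 r2 r3 t s q0 (by omega) (by omega) (by omega) p3 hts hs0 hs3
      have hsum : ∑ i, a i = 4 * (4 * x + t) + s := by
        rw [Fin.sum_univ_four]
        linarith
      rw [hsum, V_succ (n + 1) (4 * x + t) s hs0 hs3, V_succ n x t (by omega) (by omega),
        V_succ' n x t (by omega) (by omega), Fin.sum_univ_four, hv0, hv1, hv2, hv3]
      have ht : s = r0 + r1 + r2 + r3 - 4 * t := by linarith
      have hda : a 3 - a 0 = r3 - r0 := by linarith
      rw [hda]
      set i1 : ℤ := if t = 0 then 0 else 1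
      set i2 : ℤ := if t = 3 then 0 else 1
      set i3 : ℤ := if s = 0 then 0 else 1
      set j0 : ℤ := if r0 = 0 then 0 else 1
      set j1 : ℤ := if r1 = 0 then 0 else 1
      set j2 : ℤ := if r2 = 0 then 0 else 1
      set j3 : ℤ := if r3 = 0 then 0 else 1
      have key : (4 - s) * ((4 - t) * V n x + t * V n (x + 1) + 4 * i1) +
          s * ((3 - t) * V n x + (t + 1) * V n (x + 1) + 4 * i2) + 4 * i3 =
          (16 - (r0 + r1 + r2 + r3)) * V n x + (r0 + r1 + r2 + r3) * V n (x + 1) +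
          4 * ((4 - s) * i1 + s * i2 + i3) := by
        rw [hts]
        ring
      rw [key]
      linarith

end WC243
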