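import Pool.Agent.R243.WC.Defs2

/-!
# Upper bound in the limit
-/

set_option autoImplicit false
set_option linter.all false

open Set Filter Topology

noncomputable section

namespace WC243

namespace LMaux

theorem refl_class {m : ℕ} (hm : 1 ≤ m) {f : ℝ → ℝ} (hf : WCm m f) :
    WCm m fun t => f (1 - t) := by
  obtain ⟨h0, h1, h⟩ := hf
  refine ⟨?_, ?_, fun x hx hxI => ?_⟩
  · change f (1 - 0) ≤ 0
    rw [sub_zero]
    exact h1
  · change f (1 - 1) ≤ 0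
    rw [sub_self]
    exact h0
  · have hm0 : (m : ℝ) ≠ 0 := by
      have : 0 < m := hm
      positivity
    have h2 := h (fun i => 1 - x (m - 1 - i)) (fun i j hij => by
        change 1 - x (m - 1 - i) ≤ 1 - x (m - 1 - j)
        have := hx (show m - 1 - j ≤ m - 1 - i by omega)
        linarith) (fun i => by
        have := hxI (m - 1 - i)
        exact ⟨by linarith [this.2], by linarith [this.1]⟩)
    have h3 : ∑ i ∈ Finset.range m, (1 - x (m - 1 - i)) = m - ∑ i ∈ Finset.range m, x i := by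
      rw [Finset.sum_sub_distrib, Finset.sum_range_reflect (fun i => x i) m]
      simp
    have h4 : ∑ i ∈ Finset.range m, f (1 - x (m - 1 - i)) =
        ∑ i ∈ Finset.range m, f (1 - x i) :=
      Finset.sum_range_reflect (fun i => f (1 - x i)) m
    rw [h3, h4] at h2
    have h5 : ((m : ℝ) - ∑ i ∈ Finset.range m, x i) / m =
        1 - (∑ i ∈ Finset.range m, x i) / m := by
      rw [sub_div, div_self hm0]
    rw [h5] at h2
    have h6 : m - 1 - (m - 1) = 0 := by omega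
    have h7 : m - 1 - 0 = m - 1 := by omega
    rw [h6, h7] at h2
    change f (1 - (∑ i ∈ Finset.range m, x i) / m) ≤
      (∑ i ∈ Finset.range m, f (1 - x i)) / m + (x (m - 1) - x 0)
    linarith

theorem refl_BA {f : ℝ → ℝ} (hf : BA f) : BA fun t => f (1 - t) := by
  obtain ⟨C, hC⟩ := hf
  exact ⟨C, fun x hx => hC _ ⟨by linarith [hx.2], by linarith [hx.1]⟩⟩

/-- the choice of the ratio -/
theorem ratio {m : ℕ} (hm : 1 ≤ m) {s : ℝ} (h0 : 0 < s) (h1 : s ≤ 1) :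
    ∃ j : ℕ, 1 ≤ j ∧ j ≤ m ∧ s ≤ (j : ℝ) / m ∧ (j : ℝ) / m ≤ s + 1 / m := by
  have hm0 : (0 : ℝ) < m := by
    have : 0 < m := hm
    positivity
  refine ⟨⌈(m : ℝ) * s⌉₊, Nat.one_le_iff_ne_zero.2 ?_, ?_, ?_, ?_⟩
  · have : 0 < ⌈(m : ℝ) * s⌉₊ := Nat.ceil_pos.2 (by positivity)
    omega
  · refine Nat.ceil_le.2 ?_
    nlinarith
  · rw [le_div_iff₀ hm0]
    have := Nat.le_ceil ((m : ℝ) * s)
    linarith
  · rw [div_le_iff₀ hm0]
    have := (Nat.ceil_lt_add_one (show 0 ≤ (m : ℝ) * s by positivity)).le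
    have h2 : (s + 1 / m) * m = m * s + 1 := by
      field_simp
    rw [h2]
    exact this

theorem near_one (hUB : S_UB) (hSQ : S_SQ) {m : ℕ} (hm : 2 ≤ m) {f : ℝ → ℝ} (hf : WCm m f)
    (hb : BA f) {d : ℝ} (hd0 : 0 ≤ d) (hd1 : d ≤ 1) : f (1 - d) ≤ 3 * √d + 2 / m := by
  have hm0 : (0 : ℝ) < m := by
    have : 0 < m := by omega
    positivity
  rcases hd0.eq_or_lt with h | h
  · subst h
    rw [sub_zero]
    have := hf.2.1
    have h2 : 0 ≤ 3 * √0 + 2 / (m : ℝ) := by positivity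
    linarith
  · have hs0 : 0 < √d := Real.sqrt_pos.2 h
    have hs1 : √d ≤ 1 := Real.sqrt_le_one.2 hd1
    obtain ⟨j, hj1, hjm, hj2, hj3⟩ := ratio (by omega : 1 ≤ m) hs0 hs1
    have hρ : 0 < (j : ℝ) / m := hs0.trans_le hj2
    have hy : d / ((j : ℝ) / m) ≤ √d := by
      rw [div_le_iff₀ hρ]
      calc d = √d * √d := (Real.mul_self_sqrt hd0).symm
        _ ≤ √d * ((j : ℝ) / m) := mul_le_mul_of_nonneg_left hj2 hs0.le
    have hy0 : 0 ≤ d / ((j : ℝ) / m) := by positivity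
    have h3 := hSQ m j f (d / ((j : ℝ) / m)) hf hj1 hjm hy0 (hy.trans hs1)
    have h4 : (j : ℝ) / m * (d / ((j : ℝ) / m)) = d := by
      field_simp
    rw [h4] at h3
    have h5 := hUB m f hm hf hb (1 - d / ((j : ℝ) / m)) ⟨by linarith, by linarith⟩
    have h6 : (j : ℝ) / m * f (1 - d / ((j : ℝ) / m)) ≤ (j : ℝ) / m * 2 :=
      mul_le_mul_of_nonneg_left h5 hρ.le
    have h7 : (2 : ℝ) / m = 2 * (1 / m) := by ring
    rw [h7]
    linarith

theorem chain (hSP : S_SP) {m j : ℕ} {f : ℝ → ℝ} (hf : WCm m f) (hj1 : 1 ≤ j) (hjm : j ≤ m)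
    {x ρ : ℝ} (hρ : ρ = (j : ℝ) / m) (hρ0 : 0 < ρ) (hx : 0 ≤ x) {K : ℕ} (hK : x ≤ ρ ^ K)
    (hρ1 : ρ ≤ 1) : ∀ i ≤ K, f x ≤ i * (x / ρ) + ρ ^ i * f (x / ρ ^ i) := by
  intro i
  induction i with
  | zero =>
    intro _
    simp
  | succ i ih =>
    intro hi
    have h1 := ih (by omega)
    have h2 : x / ρ ^ (i + 1) ≤ 1 := by
      rw [div_le_one (by positivity)]
      exact hK.trans (pow_le_pow_of_le_one hρ0.le hρ1 hi)
    have h3 := hSP m j f (x / ρ ^ (i + 1)) hf hj1 hjm (by positivity) h2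
    rw [← hρ] at h3
    have h4 : ρ * (x / ρ ^ (i + 1)) = x / ρ ^ i := by
      rw [pow_succ]
      field_simp
    rw [h4] at h3
    have h5 : ρ ^ i * f (x / ρ ^ i) ≤
        ρ ^ i * (ρ * f (x / ρ ^ (i + 1)) + x / ρ ^ (i + 1)) :=
      mul_le_mul_of_nonneg_left h3 (by positivity)
    have h6 : ρ ^ i * (ρ * f (x / ρ ^ (i + 1)) + x / ρ ^ (i + 1)) =
        ρ ^ (i + 1) * f (x / ρ ^ (i + 1)) + x / ρ := by
      have h7 : ρ ^ i * (x / ρ ^ (i + 1)) = x / ρ := by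
        rw [pow_succ]
        field_simp
      rw [mul_add, h7, pow_succ]
      ring
    rw [h6] at h5
    push_cast
    linarith

theorem star (hUB : S_UB) (hSP : S_SP) (hSQ : S_SQ) (x : ℝ) (hx : x ∈ Icc (0 : ℝ) 1) (k : ℕ)
    (ε : ℝ) (hε : 0 < ε) : ∃ N : ℕ, ∀ m ≥ N, ∀ f : ℝ → ℝ, WCm m f → BA f →
      f x ≤ ((k : ℝ) + 1) * x ^ ((k : ℝ) / ((k : ℝ) + 1)) + ε := by
  have hk0 : (0 : ℝ) ≤ k := Nat.cast_nonneg k
  rcases hx.1.eq_or_lt with h | h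
  · refine ⟨0, fun m _ f hf _ => ?_⟩
    have h1 := hf.1
    rw [← h]
    have h2 : 0 ≤ ((k : ℝ) + 1) * (0 : ℝ) ^ ((k : ℝ) / ((k : ℝ) + 1)) := by positivity
    linarith
  obtain ⟨r, hr⟩ : ∃ r : ℝ, r = x ^ ((1 : ℝ) / ((k : ℝ) + 1)) := ⟨_, rfl⟩
  have hr0 : 0 < r := by
    rw [hr]
    exact Real.rpow_pos_of_pos h _
  have hr1 : r ≤ 1 := by
    rw [hr]
    exact Real.rpow_le_one hx.1 hx.2 (by positivity)
  have hrK : r ^ (k + 1) = x := by
    rw [hr, ← Real.rpow_natCast, ← Real.rpow_mul hx.1]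
    push_cast
    rw [one_div, inv_mul_cancel₀ (by positivity), Real.rpow_one]
  have hxr : x / r = x ^ ((k : ℝ) / ((k : ℝ) + 1)) := by
    rw [hr]
    nth_rewrite 1 [← Real.rpow_one x]
    rw [← Real.rpow_sub h]
    congr 1
    field_simp
    ring
  have hlim : Tendsto (fun m : ℕ => 3 * √(1 - x / (r + 1 / (m : ℝ)) ^ (k + 1)) + 2 * (1 / (m : ℝ)))
      atTop (𝓝 0) := by
    have h1 : Tendsto (fun m : ℕ => 1 / (m : ℝ)) atTop (𝓝 0) := tendsto_one_div_atTop_nhds_zero_nat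
    have h2 : Tendsto (fun m : ℕ => (r + 1 / (m : ℝ)) ^ (k + 1)) atTop (𝓝 ((r + 0) ^ (k + 1))) :=
      (tendsto_const_nhds.add h1).pow (k + 1)
    rw [add_zero, hrK] at h2
    have h3 : Tendsto (fun m : ℕ => 1 - x / (r + 1 / (m : ℝ)) ^ (k + 1)) atTop (𝓝 (1 - x / x)) :=
      tendsto_const_nhds.sub (tendsto_const_nhds.div h2 h.ne')
    rw [div_self h.ne', sub_self] at h3
    have h4 := ((Real.continuous_sqrt.tendsto 0).comp h3).const_mul 3
    have h5 := h4.add (h1.const_mul 2)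
    rw [Real.sqrt_zero] at h5
    simpa using h5
  obtain ⟨N, hN⟩ := (hlim.eventually (ge_mem_nhds hε)).exists_forall_of_atTop
  refine ⟨max N 2, fun m hm f hf hb => ?_⟩
  have hm2 : 2 ≤ m := (le_max_right _ _).trans hm
  have hmN : N ≤ m := (le_max_left _ _).trans hm
  have hm0 : (0 : ℝ) < m := by
    have : 0 < m := by omega
    positivity
  have hE := hN m hmN
  obtain ⟨j, hj1, hjm, hj2, hj3⟩ := ratio (by omega : 1 ≤ m) hr0 hr1
  obtain ⟨ρ, hρ⟩ : ∃ ρ : ℝ, ρ = (j : ℝ) / m := ⟨_, rfl⟩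
  rw [← hρ] at hj2 hj3
  have hρ0 : 0 < ρ := hr0.trans_le hj2
  have hρ1 : ρ ≤ 1 := by
    rw [hρ, div_le_one hm0]
    exact_mod_cast hjm
  have hK : x ≤ ρ ^ (k + 1) := by
    rw [← hrK]
    exact pow_le_pow_left₀ hr0.le hj2 _
  have h1 := chain hSP hf hj1 hjm hρ hρ0 hx.1 hK hρ1 (k + 1) le_rfl
  have hz : x / ρ ^ (k + 1) ≤ 1 := (div_le_one (by positivity)).2 hK
  have hz0 : 0 ≤ x / ρ ^ (k + 1) := by positivity
  have h2 := near_one hUB hSQ hm2 hf hb (d := 1 - x / ρ ^ (k + 1)) (by linarith) (by linarith)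
  rw [sub_sub_cancel] at h2
  have h3 : √(1 - x / ρ ^ (k + 1)) ≤ √(1 - x / (r + 1 / (m : ℝ)) ^ (k + 1)) := by
    refine Real.sqrt_le_sqrt ?_
    have h4 : ρ ^ (k + 1) ≤ (r + 1 / (m : ℝ)) ^ (k + 1) := pow_le_pow_left₀ hρ0.le hj3 _
    have h5 : x / (r + 1 / (m : ℝ)) ^ (k + 1) ≤ x / ρ ^ (k + 1) :=
      div_le_div_of_nonneg_left hx.1 (by positivity) h4
    linarith
  have h4 : f (x / ρ ^ (k + 1)) ≤ ε := by
    have h5 : (2 : ℝ) / m = 2 * (1 / m) := by ring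
    rw [h5] at h2
    have h6 : 3 * √(1 - x / (r + 1 / (m : ℝ)) ^ (k + 1)) + 2 * (1 / (m : ℝ)) ≤ ε := hE
    linarith
  have h5 : ρ ^ (k + 1) * f (x / ρ ^ (k + 1)) ≤ ε := by
    have h6 : ρ ^ (k + 1) ≤ 1 := pow_le_one₀ hρ0.le hρ1
    have h7 : 0 < ρ ^ (k + 1) := by positivity
    calc ρ ^ (k + 1) * f (x / ρ ^ (k + 1)) ≤ ρ ^ (k + 1) * ε :=
          mul_le_mul_of_nonneg_left h4 h7.le
      _ ≤ 1 * ε := mul_le_mul_of_nonneg_right h6 hε.le
      _ = ε := one_mul ε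
  have h6 : x / ρ ≤ x ^ ((k : ℝ) / ((k : ℝ) + 1)) := by
    rw [← hxr]
    exact div_le_div_of_nonneg_left hx.1 hr0 hj2
  have h7 : ((k + 1 : ℕ) : ℝ) * (x / ρ) ≤
      ((k : ℝ) + 1) * x ^ ((k : ℝ) / ((k : ℝ) + 1)) := by
    push_cast
    exact mul_le_mul_of_nonneg_left h6 (by positivity)
  linarith

theorem le_phi (hUB : S_UB) (hSP : S_SP) (hSQ : S_SQ) (x : ℝ) (hx : x ∈ Icc (0 : ℝ) 1)
    (ε : ℝ) (hε : 0 < ε) : ∃ N : ℕ, ∀ m ≥ N, ∀ f : ℝ → ℝ, WCm m f → BA f → f x ≤ phi x + ε := by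
  have h1 : phi x < phi x + ε / 2 := by linarith
  obtain ⟨k, hk⟩ := exists_lt_of_ciInf_lt (show (⨅ k : ℕ, ((k : ℝ) + 1) *
    x ^ ((k : ℝ) / ((k : ℝ) + 1))) < phi x + ε / 2 from h1)
  obtain ⟨N, hN⟩ := star hUB hSP hSQ x hx k (ε / 2) (by linarith)
  refine ⟨N, fun m hm f hf hb => ?_⟩
  have := hN m hm f hf hb
  linarith

end LMaux

open LMaux in
theorem t_LM (hPH : S_PH) (hUB : S_UB) (hSP : S_SP) (hSQ : S_SQ) : S_LM := by
  intro x hx ε hε
  obtain ⟨N, hN⟩ := le_phi hUB hSP hSQ x hx ε hε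
  obtain ⟨N', hN'⟩ := le_phi hUB hSP hSQ (1 - x) ⟨by linarith [hx.2], by linarith [hx.1]⟩ ε hε
  refine ⟨max (max N N') 1, fun m hm f hf hb => ?_⟩
  have h1 := hN m ((le_max_left _ _).trans ((le_max_left _ _).trans hm)) f hf hb
  have h2 := hN' m ((le_max_right _ _).trans ((le_max_left _ _).trans hm)) _
    (refl_class ((le_max_right _ _).trans hm) hf) (refl_BA hb)
  have h3 : f x ≤ phi (1 - x) + ε := by
    have h4 : f (1 - (1 - x)) ≤ phi (1 - x) + ε := h2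
    rwa [sub_sub_cancel] at h4
  unfold LL
  rw [← min_add_add_right]
  exact le_min h1 h3

end WC243
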