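import Pool.Agent.R243.WC.Defs2

/-!
# Project WL, piece ML: the limit function belongs to all classes
-/

open Set Filter Topology

noncomputable section

namespace WC243

theorem MLaux.conc (hPH : S_PH) {a b t : ℝ} (ha : 0 ≤ a) (hab : a < b) (hb : b ≤ 1)
    (hat : a ≤ t) (htb : t ≤ b) :
    ((b - t) * LL a + (t - a) * LL b) / (b - a) ≤ LL t := by
  have hd : 0 < b - a := by linarith
  have hc := hPH.2.2.2.2
  obtain ⟨w1, hw1⟩ : ∃ w : ℝ, w = (b - t) / (b - a) := ⟨_, rfl⟩
  obtain ⟨w2, hw2⟩ : ∃ w : ℝ, w = (t - a) / (b - a) := ⟨_, rfl⟩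
  have h1 : 0 ≤ w1 := by rw [hw1]; exact div_nonneg (by linarith) hd.le
  have h2 : 0 ≤ w2 := by rw [hw2]; exact div_nonneg (by linarith) hd.le
  have h12 : w1 + w2 = 1 := by
    rw [hw1, hw2, ← add_div, div_eq_one_iff_eq hd.ne']
    ring
  have ht : w1 * a + w2 * b = t := by
    rw [hw1, hw2]
    field_simp
    ring
  have h3 : ((b - t) * LL a + (t - a) * LL b) / (b - a) = w1 * LL a + w2 * LL b := by
    rw [hw1, hw2]
    ring
  rw [h3]
  have e1 := hc.2 (x := a) (y := b) (mem_Ici.2 ha) (mem_Ici.2 (by linarith)) h1 h2 h12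
  have e2 := hc.2 (x := 1 - a) (y := 1 - b) (mem_Ici.2 (by linarith)) (mem_Ici.2 (by linarith))
    h1 h2 h12
  simp only [smul_eq_mul] at e1 e2
  rw [ht] at e1
  have ht' : w1 * (1 - a) + w2 * (1 - b) = 1 - t := by
    rw [← ht]
    linear_combination h12
  rw [ht'] at e2
  refine le_min ?_ ?_
  · refine le_trans ?_ e1
    exact add_le_add (mul_le_mul_of_nonneg_left (min_le_left _ _) h1)
      (mul_le_mul_of_nonneg_left (min_le_left _ _) h2)
  · refine le_trans ?_ e2
    exact add_le_add (mul_le_mul_of_nonneg_left (min_le_right _ _) h1)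
      (mul_le_mul_of_nonneg_left (min_le_right _ _) h2)

/-- ML: the limit function belongs to all classes -/
theorem t_ML (hPH : S_PH) (hCL : S_CL) : S_ML := by
  intro m hm
  have hm' : (0:ℝ) < m := by exact_mod_cast hm
  refine ⟨(min_le_left _ _).trans hPH.1.le, ?_, fun x hx hx1 => ?_⟩
  · refine (min_le_right _ _).trans ?_
    rw [sub_self]
    exact hPH.1.le
  obtain ⟨a, ha⟩ : ∃ a, a = x 0 := ⟨_, rfl⟩
  obtain ⟨b, hb⟩ : ∃ b, b = x (m - 1) := ⟨_, rfl⟩
  obtain ⟨t, ht⟩ : ∃ t, t = (∑ i ∈ Finset.range m, x i) / m := ⟨_, rfl⟩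
  have ha0 : 0 ≤ a := by rw [ha]; exact (hx1 0).1
  have hb1 : b ≤ 1 := by rw [hb]; exact (hx1 _).2
  have hab : a ≤ b := by rw [ha, hb]; exact hx (Nat.zero_le _)
  have hax : ∀ i, a ≤ x i := fun i => by rw [ha]; exact hx (Nat.zero_le _)
  have hxb : ∀ i ∈ Finset.range m, x i ≤ b := fun i hi => by
    rw [hb]
    exact hx (by have := Finset.mem_range.1 hi; omega)
  have hsum : ∑ i ∈ Finset.range m, x i = m * t := by
    rw [ht]
    field_simp
  have hat : a ≤ t := by
    rw [ht, le_div_iff₀ hm']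
    have := Finset.card_nsmul_le_sum (Finset.range m) x a fun i _ => hax i
    rw [Finset.card_range, nsmul_eq_mul] at this
    linarith
  have htb : t ≤ b := by
    rw [ht, div_le_iff₀ hm']
    have := Finset.sum_le_card_nsmul (Finset.range m) x b hxb
    rw [Finset.card_range, nsmul_eq_mul] at this
    linarith
  rw [← ht, ← ha, ← hb]
  rcases hab.eq_or_lt with h | h
  · have h1 : t = a := le_antisymm (by rw [h]; exact htb) hat
    have h2 : ∑ i ∈ Finset.range m, LL (x i) = m * LL a := by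
      rw [Finset.sum_congr rfl (g := fun _ => LL a) fun i hi => by
        rw [le_antisymm ((hxb i hi).trans h.ge) (hax i)]]
      simp
    rw [h1, h2, h, mul_div_assoc, mul_div_cancel₀ _ hm'.ne']
    linarith
  · have hd : 0 < b - a := by linarith
    have h1 : ((b - t) * LL a + (t - a) * LL b) / (b - a) ≤
        (∑ i ∈ Finset.range m, LL (x i)) / m := by
      rw [le_div_iff₀ hm']
      have h2 : ∑ i ∈ Finset.range m, ((b - x i) * LL a + (x i - a) * LL b) / (b - a) ≤
          ∑ i ∈ Finset.range m, LL (x i) :=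
        Finset.sum_le_sum fun i hi => MLaux.conc hPH ha0 h hb1 (hax i) (hxb i hi)
      refine le_trans (le_of_eq ?_) h2
      rw [← Finset.sum_div, Finset.sum_add_distrib, ← Finset.sum_mul, ← Finset.sum_mul,
        Finset.sum_sub_distrib, Finset.sum_sub_distrib, hsum]
      simp only [Finset.sum_const, Finset.card_range, nsmul_eq_mul]
      ring
    have h2 : LL t ≤ ((b - t) * LL a + (t - a) * LL b) / (b - a) + (b - a) := by
      rcases hat.eq_or_lt with h3 | h3
      · rw [← h3, sub_self, zero_mul, add_zero, mul_div_assoc, mul_div_cancel₀ _ hd.ne']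
        linarith
      · rcases htb.eq_or_lt with h4 | h4
        · rw [h4, sub_self, zero_mul, zero_add, mul_div_assoc, mul_div_cancel₀ _ hd.ne']
          linarith
        · exact hCL a b t ha0 h3 h4 hb1
    linarith

end WC243
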