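import Pool.Agent.R243.WC.Defs2

/-! WL-PA: comparison through the arithmetic-geometric mean inequality -/

set_option autoImplicit false

open Set Filter Topology

noncomputable section

namespace WC243

namespace PAaux

theorem amgm (x b : ℝ) (hx : 0 < x) (hb : 0 < b) (k : ℕ) :
    ((k : ℝ) + 1 + 1) * x ^ (((k : ℝ) + 1) / ((k : ℝ) + 1 + 1)) ≤
      (x / b) * (((k : ℝ) + 1) * b ^ ((k : ℝ) / ((k : ℝ) + 1))) + b := by
  have hK : (0 : ℝ) < (k : ℝ) + 1 := by positivity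
  have hK2 : (0 : ℝ) < (k : ℝ) + 1 + 1 := by positivity
  have h2 := Real.geom_mean_le_arith_mean2_weighted
    (w₁ := ((k : ℝ) + 1) / ((k : ℝ) + 1 + 1)) (w₂ := 1 / ((k : ℝ) + 1 + 1))
    (p₁ := x * b ^ (-(1 / ((k : ℝ) + 1)))) (p₂ := b) (by positivity) (by positivity)
    (by positivity) hb.le (by field_simp)
  have h3 : (x * b ^ (-(1 / ((k : ℝ) + 1)))) ^ (((k : ℝ) + 1) / ((k : ℝ) + 1 + 1)) *
      b ^ (1 / ((k : ℝ) + 1 + 1)) = x ^ (((k : ℝ) + 1) / ((k : ℝ) + 1 + 1)) := by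
    rw [Real.mul_rpow hx.le (Real.rpow_nonneg hb.le _), ← Real.rpow_mul hb.le, mul_assoc,
      ← Real.rpow_add hb]
    have e : -(1 / ((k : ℝ) + 1)) * (((k : ℝ) + 1) / ((k : ℝ) + 1 + 1)) +
        1 / ((k : ℝ) + 1 + 1) = 0 := by
      field_simp
      ring
    rw [e, Real.rpow_zero, mul_one]
  have h4 : b ^ ((k : ℝ) / ((k : ℝ) + 1)) = b * b ^ (-(1 / ((k : ℝ) + 1))) := by
    have e : (k : ℝ) / ((k : ℝ) + 1) = 1 + -(1 / ((k : ℝ) + 1)) := by
      field_simp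
      ring
    rw [e, Real.rpow_add hb, Real.rpow_one]
  rw [h3] at h2
  rw [h4]
  generalize b ^ (-(1 / ((k : ℝ) + 1))) = B at *
  generalize x ^ (((k : ℝ) + 1) / ((k : ℝ) + 1 + 1)) = Y at *
  have h5 := mul_le_mul_of_nonneg_left h2 hK2.le
  have h6 : ((k : ℝ) + 1 + 1) * (((k : ℝ) + 1) / ((k : ℝ) + 1 + 1) * (x * B) +
      1 / ((k : ℝ) + 1 + 1) * b) = (x / b) * (((k : ℝ) + 1) * (b * B)) + b := by
    field_simp
  rw [h6] at h5
  exact h5

end PAaux

theorem t_PA (hPH : S_PH) : S_PA := by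
  intro x b hx hxb _
  have hb0 : 0 < b := lt_of_lt_of_le hx hxb
  have key : ∀ k : ℕ, (phi x - b) * (b / x) ≤
      ((k : ℝ) + 1) * b ^ ((k : ℝ) / ((k : ℝ) + 1)) := by
    intro k
    have h1 := hPH.2.2.1 x hx.le (k + 1)
    push_cast at h1
    have h2 := PAaux.amgm x b hx hb0 k
    have h3 : phi x - b ≤ (x / b) * (((k : ℝ) + 1) * b ^ ((k : ℝ) / ((k : ℝ) + 1))) := by
      linarith
    have h4 := mul_le_mul_of_nonneg_right h3 (show 0 ≤ b / x by positivity)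
    refine h4.trans (le_of_eq ?_)
    field_simp
  have h5 : (phi x - b) * (b / x) ≤ phi b := le_ciInf key
  have h6 := mul_le_mul_of_nonneg_left h5 (show 0 ≤ x / b by positivity)
  have h7 : x / b * ((phi x - b) * (b / x)) = phi x - b := by
    field_simp
  rw [h7] at h6
  linarith

end WC243
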