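import Pool.Agent.R243.WC.Defs2

/-!
# Piece PB: the second comparison
-/

open Set Filter Topology

noncomputable section

namespace WC243

namespace PBaux

lemma rpow_id {p₁ p₂ x w₁ w₂ w : ℝ} (hp₁ : 0 < p₁) (hp₂ : 0 < p₂) (hx : 0 < x)
    (h : Real.log p₁ * w₁ + Real.log p₂ * w₂ = Real.log x * w) :
    p₁ ^ w₁ * p₂ ^ w₂ = x ^ w := by
  rw [Real.rpow_def_of_pos hp₁, Real.rpow_def_of_pos hp₂, Real.rpow_def_of_pos hx,
    ← Real.exp_add, h]

lemma claim (hPH : S_PH) {x b : ℝ} (hx : 0 < x) (hxb : x ≤ b) (hb : b ≤ 1) (hb2 : b ≤ 2 * x)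
    (k : ℕ) : phi x ≤ (x / b) * (((k : ℝ) + 1) * b ^ ((k : ℝ) / ((k : ℝ) + 1))) +
      4 * x * (b - x) / b := by
  have hb0 : 0 < b := lt_of_lt_of_le hx hxb
  obtain ⟨-, -, hle, -, -⟩ := hPH
  obtain ⟨q, hq⟩ : ∃ q : ℝ, q = (k : ℝ) := ⟨_, rfl⟩
  have hq0 : 0 ≤ q := by rw [hq]; positivity
  obtain ⟨B, hB⟩ : ∃ B : ℝ, B = Real.exp (-Real.log b / (q + 1)) := ⟨_, rfl⟩
  have hB0 : 0 < B := by rw [hB]; positivity
  have hlogB : Real.log B = -Real.log b / (q + 1) := by rw [hB, Real.log_exp]
  have hbB : b ^ (q / (q + 1)) = b * B := by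
    rw [Real.rpow_def_of_pos hb0]
    have h1 : Real.log b * (q / (q + 1)) = Real.log b + -Real.log b / (q + 1) := by
      field_simp
      ring
    rw [h1, Real.exp_add, Real.exp_log hb0, hB]
  rw [← hq, hbB]
  have e1 : (x / b) * ((q + 1) * (b * B)) = (q + 1) * (x * B) := by
    field_simp
  rw [e1]
  have hs1 : x / b ≤ 1 := by
    rw [div_le_one hb0]
    exact hxb
  have hs2 : 1 / 2 ≤ x / b := by
    rw [div_le_div_iff₀ (by norm_num) hb0]
    linarith
  obtain ⟨s, hs⟩ : ∃ s : ℝ, s = x / b := ⟨_, rfl⟩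
  have hsb : x = s * b := by
    rw [hs]
    field_simp
  have e2 : 4 * x * (b - x) / b = 4 * x * (1 - s) := by
    rw [hs]
    field_simp
  rw [e2]
  rw [← hs] at hs1 hs2
  have hs0 : 0 < s := by linarith
  by_cases hcase : B ≤ 4 * s
  · -- first case
    have h1 := hle x hx.le k
    rw [← hq] at h1
    have h2 := Real.geom_mean_le_arith_mean2_weighted (w₁ := q / (q + 1)) (w₂ := 1 / (q + 1))
      (p₁ := x * B) (p₂ := b * B) (by positivity) (by positivity) (by positivity) (by positivity)
      (by field_simp)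
    rw [rpow_id (x := x) (w := q / (q + 1)) (by positivity) (by positivity) hx (by
      rw [Real.log_mul hx.ne' hB0.ne', Real.log_mul hb0.ne' hB0.ne', hlogB]
      field_simp
      ring)] at h2
    have h3 : (q + 1) * x ^ (q / (q + 1)) ≤ q * (x * B) + b * B := by
      have h4 := mul_le_mul_of_nonneg_left h2 (by positivity : 0 ≤ q + 1)
      have h5 : (q + 1) * (q / (q + 1) * (x * B) + 1 / (q + 1) * (b * B)) =
          q * (x * B) + b * B := by
        field_simp
      rwa [h5] at h4
    have h6 : b * B - x * B ≤ 4 * x * (1 - s) := by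
      rw [hsb]
      have h7 : 0 ≤ (1 - s) * b * (4 * s - B) :=
        mul_nonneg (mul_nonneg (by linarith) hb0.le) (by linarith)
      nlinarith
    linarith
  · -- second case
    push Not at hcase
    have h1 := hle x hx.le (k + 1)
    push_cast at h1
    rw [← hq] at h1
    obtain ⟨y, hy⟩ : ∃ y : ℝ, y = √(B / s) := ⟨_, rfl⟩
    have hBs : 0 < B / s := by positivity
    have hy0 : 0 < y := by
      rw [hy]
      exact Real.sqrt_pos.2 hBs
    have hy2 : y ^ 2 = B / s := by
      rw [hy]
      exact Real.sq_sqrt hBs.le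
    have hBy : B = s * y ^ 2 := by
      rw [hy2]
      field_simp
    have hy4 : 2 ≤ y := by
      have h4 : 4 < y ^ 2 := by
        rw [hy2, lt_div_iff₀ hs0]
        exact hcase
      nlinarith
    have hlogs : Real.log s = Real.log x - Real.log b := by
      rw [hs, Real.log_div hx.ne' hb0.ne']
    have hlogy : Real.log y = (Real.log B - Real.log s) / 2 := by
      rw [hy, Real.log_sqrt hBs.le, Real.log_div hB0.ne' hs0.ne']
    have h2 := Real.geom_mean_le_arith_mean2_weighted (w₁ := q / (q + 2)) (w₂ := 2 / (q + 2))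
      (p₁ := x * B) (p₂ := x * y) (by positivity) (by positivity) (by positivity) (by positivity)
      (by field_simp)
    rw [rpow_id (x := x) (w := (q + 1) / (q + 2)) (by positivity) (by positivity) hx (by
      rw [Real.log_mul hx.ne' hB0.ne', Real.log_mul hx.ne' hy0.ne', hlogy, hlogs, hlogB]
      field_simp
      ring)] at h2
    have h3 : (q + 2) * x ^ ((q + 1) / (q + 2)) ≤ q * (x * B) + 2 * (x * y) := by
      have h4 := mul_le_mul_of_nonneg_left h2 (by positivity : 0 ≤ q + 2)
      have h5 : (q + 2) * (q / (q + 2) * (x * B) + 2 / (q + 2) * (x * y)) =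
          q * (x * B) + 2 * (x * y) := by
        field_simp
      rwa [h5] at h4
    have h12 : q + 1 + 1 = q + 2 := by ring
    rw [h12] at h1
    have h6 : 2 * y ≤ B + 4 * (1 - s) := by
      rw [hBy]
      have h7 : 0 ≤ (y - 2) * (s * (y + 2) - 2) :=
        mul_nonneg (by linarith) (by nlinarith)
      nlinarith
    have h8 : 2 * (x * y) ≤ x * B + 4 * x * (1 - s) := by
      have := mul_le_mul_of_nonneg_left h6 hx.le
      linarith
    linarith

end PBaux

theorem t_PB (hPH : S_PH) : S_PB := by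
  intro x b hx hxb hb hb2
  have hb0 : 0 < b := lt_of_lt_of_le hx hxb
  have hxb0 : 0 < x / b := by positivity
  have h1 : (phi x - 4 * x * (b - x) / b) / (x / b) ≤ phi b := by
    unfold phi
    refine le_ciInf fun k => ?_
    rw [div_le_iff₀ hxb0]
    have h2 := PBaux.claim hPH hx hxb hb hb2 k
    unfold phi at h2
    linarith
  rw [div_le_iff₀ hxb0] at h1
  linarith

end WC243
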