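import Pool.Agent.R243.WC.Defs2

/-! PH: basic facts on `φ`. -/

open Set Filter Topology

noncomputable section

namespace WC243

namespace PHaux

/-- the terms of the infimum -/
def t (k : ℕ) (x : ℝ) : ℝ := ((k : ℝ) + 1) * x ^ ((k : ℝ) / ((k : ℝ) + 1))

theorem phi_eq (x : ℝ) : phi x = ⨅ k : ℕ, t k x := rfl

theorem t_nonneg (k : ℕ) {x : ℝ} (hx : 0 ≤ x) : 0 ≤ t k x :=
  mul_nonneg (by positivity) (Real.rpow_nonneg hx _)

theorem bdd {x : ℝ} (hx : 0 ≤ x) : BddBelow (range fun k : ℕ => t k x) :=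
  ⟨0, by rintro _ ⟨k, rfl⟩; exact t_nonneg k hx⟩

theorem phi_le (k : ℕ) {x : ℝ} (hx : 0 ≤ x) : phi x ≤ t k x := ciInf_le (bdd hx) k

theorem phi_nonneg {x : ℝ} (hx : 0 ≤ x) : 0 ≤ phi x := le_ciInf fun k => t_nonneg k hx

theorem t_zero (x : ℝ) : t 0 x = 1 := by simp [t]

theorem t_one (x : ℝ) : t 1 x = 2 * √x := by
  rw [t, Real.sqrt_eq_rpow]
  norm_num

theorem exp_nonneg (k : ℕ) : (0 : ℝ) ≤ (k : ℝ) / ((k : ℝ) + 1) := by positivity

theorem exp_le_one (k : ℕ) : (k : ℝ) / ((k : ℝ) + 1) ≤ 1 := by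
  rw [div_le_one (by positivity)]; linarith

theorem quarter (k : ℕ) : 1 ≤ t k (1 / 4) := by
  have hsq : √(1 / 4 : ℝ) = 1 / 2 := by
    rw [show (1 / 4 : ℝ) = (1 / 2) ^ 2 by norm_num]
    exact Real.sqrt_sq (by norm_num)
  match k with
  | 0 => rw [t_zero]
  | 1 => rw [t_one, hsq]; norm_num
  | 2 =>
    have h0 : (0 : ℝ) ≤ (1 / 4 : ℝ) ^ ((2 : ℝ) / 3) := Real.rpow_nonneg (by norm_num) _
    have h1 : ((1 / 4 : ℝ) ^ ((2 : ℝ) / 3)) ^ (3 : ℕ) = (1 / 4 : ℝ) ^ (2 : ℕ) := by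
      rw [← Real.rpow_natCast, ← Real.rpow_mul (by norm_num), ← Real.rpow_natCast]
      norm_num
    have h2 : (1 / 3 : ℝ) ≤ (1 / 4 : ℝ) ^ ((2 : ℝ) / 3) := by
      apply le_of_pow_le_pow_left₀ (n := 3) (by norm_num) h0
      rw [h1]
      norm_num
    have h3 : t 2 (1 / 4) = 3 * (1 / 4 : ℝ) ^ ((2 : ℝ) / 3) := by
      rw [t]; norm_num
    rw [h3]
    linarith
  | k + 3 =>
    have h1 : (1 / 4 : ℝ) ^ (1 : ℝ) ≤ (1 / 4 : ℝ) ^ (((k + 3 : ℕ) : ℝ) / (((k + 3 : ℕ) : ℝ) + 1)) :=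
      Real.rpow_le_rpow_of_exponent_ge (by norm_num) (by norm_num) (exp_le_one _)
    rw [Real.rpow_one] at h1
    have h2 : (4 : ℝ) ≤ ((k + 3 : ℕ) : ℝ) + 1 := by
      push_cast
      have : (0 : ℝ) ≤ (k : ℝ) := Nat.cast_nonneg k
      linarith
    rw [t]
    nlinarith

theorem t_mono (k : ℕ) {x y : ℝ} (hx : 0 ≤ x) (hxy : x ≤ y) : t k x ≤ t k y :=
  mul_le_mul_of_nonneg_left (Real.rpow_le_rpow hx hxy (exp_nonneg k)) (by positivity)

theorem t_concave (k : ℕ) {x y a b : ℝ} (hx : 0 ≤ x) (hy : 0 ≤ y) (ha : 0 ≤ a) (hb : 0 ≤ b)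
    (hab : a + b = 1) : a * t k x + b * t k y ≤ t k (a * x + b * y) := by
  have h := (Real.concaveOn_rpow (exp_nonneg k) (exp_le_one k)).2 (mem_Ici.2 hx) (mem_Ici.2 hy)
    ha hb hab
  simp only [smul_eq_mul] at h
  have hk : (0 : ℝ) ≤ (k : ℝ) + 1 := by positivity
  have h2 := mul_le_mul_of_nonneg_left h hk
  simp only [t]
  linarith

end PHaux

open PHaux in
theorem t_PH : S_PH := by
  refine ⟨?_, ?_, ?_, ?_, ?_⟩
  · apply le_antisymm
    · have := phi_le 1 (le_refl (0 : ℝ))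
      rw [t_one] at this
      simpa using this
    · exact phi_nonneg le_rfl
  · intro x hx hx1
    have hx0 : 0 ≤ x := by linarith
    apply le_antisymm
    · have := phi_le 0 hx0
      rwa [t_zero] at this
    · exact le_ciInf fun k => (quarter k).trans (t_mono k (by norm_num) hx)
  · intro x hx k
    exact phi_le k hx
  · intro x hx hx1
    refine ⟨phi_nonneg hx, ?_, ?_⟩
    · have := phi_le 0 hx
      rwa [t_zero] at this
    · have := phi_le 1 hx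
      rwa [t_one] at this
  · refine ⟨convex_Ici 0, ?_⟩
    intro x hx y hy a b ha hb hab
    have hx0 : 0 ≤ x := hx
    have hy0 : 0 ≤ y := hy
    simp only [smul_eq_mul]
    refine le_ciInf fun k => ?_
    have h1 : a * phi x ≤ a * t k x := mul_le_mul_of_nonneg_left (phi_le k hx0) ha
    have h2 : b * phi y ≤ b * t k y := mul_le_mul_of_nonneg_left (phi_le k hy0) hb
    have h3 := t_concave k hx0 hy0 ha hb hab
    exact (add_le_add h1 h2).trans h3

end WC243
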