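import Pool.Agent.R243.WC.Defs2

/-!
# Project WL, pieces SP and SQ: one step by a two-valued tuple and its reflection
-/

open Set Filter Topology

noncomputable section

namespace WC243

theorem t_SP : S_SP := by
  intro m j f y hf hj hjm hy hy1
  obtain ⟨h0, _, h⟩ := hf
  obtain ⟨k, rfl⟩ : ∃ k, m = k + j := ⟨m - j, by omega⟩
  have key := h (fun i => if i < k then 0 else y) ?_ ?_
  · have e1 : (∑ i ∈ Finset.range (k + j), (if i < k then (0 : ℝ) else y)) = j * y := by
      rw [Finset.sum_range_add,
        Finset.sum_congr rfl (g := fun _ => (0 : ℝ))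
          (fun i hi => by rw [if_pos (Finset.mem_range.1 hi)]),
        Finset.sum_congr (s₁ := Finset.range j) rfl (g := fun _ => y)
          (fun i hi => by rw [if_neg (by omega)])]
      simp
    have e2 : (∑ i ∈ Finset.range (k + j), f (if i < k then (0 : ℝ) else y)) =
        k * f 0 + j * f y := by
      rw [Finset.sum_range_add,
        Finset.sum_congr rfl (g := fun _ => f 0)
          (fun i hi => by rw [if_pos (Finset.mem_range.1 hi)]),
        Finset.sum_congr (s₁ := Finset.range j) rfl (g := fun _ => f y)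
          (fun i hi => by rw [if_neg (by omega)])]
      simp
    have e3 : (if k + j - 1 < k then (0 : ℝ) else y) - (if 0 < k then (0 : ℝ) else y) ≤ y := by
      rw [if_neg (by omega)]
      split_ifs <;> linarith
    have hm : (0 : ℝ) < ((k + j : ℕ) : ℝ) := by
      have : 0 < k + j := by omega
      exact_mod_cast this
    simp only [e1, e2] at key
    have e5 : ((k : ℝ) * f 0 + j * f y) / ((k + j : ℕ) : ℝ) ≤ (j : ℝ) / ((k + j : ℕ) : ℝ) * f y := by
      rw [div_mul_eq_mul_div]
      apply div_le_div_of_nonneg_right _ hm.le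
      nlinarith [mul_nonpos_of_nonneg_of_nonpos (Nat.cast_nonneg (α := ℝ) k) h0]
    have e6 : (j : ℝ) / ((k + j : ℕ) : ℝ) * y = (j : ℝ) * y / ((k + j : ℕ) : ℝ) := by ring
    rw [e6]
    linarith
  · intro a b hab
    show (if a < k then (0 : ℝ) else y) ≤ if b < k then (0 : ℝ) else y
    split_ifs with h1 h2 h2
    · exact le_rfl
    · exact hy
    · omega
    · exact le_rfl
  · intro i
    show (if i < k then (0 : ℝ) else y) ∈ Icc (0 : ℝ) 1
    split_ifs
    · exact ⟨le_rfl, zero_le_one⟩
    · exact ⟨hy, hy1⟩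

namespace SPaux

/-- the class is invariant under reflection -/
theorem reflect {m : ℕ} (hm : 1 ≤ m) {f : ℝ → ℝ} (hf : WCm m f) :
    WCm m (fun t => f (1 - t)) := by
  obtain ⟨h0, h1, h⟩ := hf
  refine ⟨by simpa using h1, by simpa using h0, ?_⟩
  intro x hx hx1
  have key := h (fun i => 1 - x (m - 1 - i)) ?_ ?_
  · have hm0 : (m : ℝ) ≠ 0 := by
      have : m ≠ 0 := by omega
      exact_mod_cast this
    have e1 : (∑ i ∈ Finset.range m, (1 - x (m - 1 - i))) = m - ∑ i ∈ Finset.range m, x i := by
      rw [Finset.sum_sub_distrib, Finset.sum_range_reflect (fun i => x i) m]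
      simp
    have e2 : (∑ i ∈ Finset.range m, f (1 - x (m - 1 - i))) =
        ∑ i ∈ Finset.range m, f (1 - x i) :=
      Finset.sum_range_reflect (fun i => f (1 - x i)) m
    have e3 : ((m : ℝ) - ∑ i ∈ Finset.range m, x i) / m =
        1 - (∑ i ∈ Finset.range m, x i) / m := by
      rw [sub_div, div_self hm0]
    simp only [e1, e2, e3] at key
    have e4 : m - 1 - (m - 1) = 0 := by omega
    have e5 : m - 1 - 0 = m - 1 := by omega
    rw [e4, e5] at key
    show f (1 - (∑ i ∈ Finset.range m, x i) / m) ≤
      (∑ i ∈ Finset.range m, f (1 - x i)) / m + (x (m - 1) - x 0)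
    linarith
  · intro a b hab
    show 1 - x (m - 1 - a) ≤ 1 - x (m - 1 - b)
    have : x (m - 1 - b) ≤ x (m - 1 - a) := hx (by omega)
    linarith
  · intro i
    have := hx1 (m - 1 - i)
    exact ⟨by linarith [this.2], by linarith [this.1]⟩

end SPaux

theorem t_SQ (hSP : S_SP) : S_SQ := by
  intro m j f y hf hj hjm hy hy1
  exact hSP m j (fun t => f (1 - t)) y (SPaux.reflect (by omega) hf) hj hjm hy hy1

end WC243
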