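import Pool.Agent.R243.WC.Defs2

/-!
# Project WL, piece UB: a universal bound
-/

open Set Filter Topology

noncomputable section

namespace WC243

namespace UBaux

/-- the tuple `0, …, 0, y, 1, …, 1` with `a` zeros -/
def sq (a : ℕ) (y : ℝ) (i : ℕ) : ℝ := if i < a then 0 else if i = a then y else 1

theorem sum_sq (g : ℝ → ℝ) (a j : ℕ) (y : ℝ) :
    ∑ i ∈ Finset.range (a + 1 + j), g (sq a y i) = a * g 0 + g y + j * g 1 := by
  induction j with
  | zero =>
    rw [Nat.add_zero, Finset.sum_range_succ, Finset.sum_congr rfl (g := fun _ => g 0)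
      (fun i hi => by unfold sq; rw [if_pos (Finset.mem_range.1 hi)])]
    have : sq a y a = y := by unfold sq; rw [if_neg (lt_irrefl a), if_pos rfl]
    rw [this]
    simp
  | succ j ih =>
    have e : sq a y (a + 1 + j) = 1 := by
      unfold sq
      rw [if_neg (by omega), if_neg (by omega)]
    rw [← Nat.add_assoc, Finset.sum_range_succ, ih, e]
    push_cast
    ring

theorem mono_sq (a : ℕ) {y : ℝ} (h0 : 0 ≤ y) (h1 : y ≤ 1) : Monotone (sq a y) := by
  intro i j hij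
  unfold sq
  split_ifs <;> first | omega | linarith

theorem mem_sq (a : ℕ) {y : ℝ} (h0 : 0 ≤ y) (h1 : y ≤ 1) (i : ℕ) : sq a y i ∈ Icc (0 : ℝ) 1 := by
  unfold sq
  split_ifs
  · exact ⟨le_rfl, zero_le_one⟩
  · exact ⟨h0, h1⟩
  · exact ⟨zero_le_one, le_rfl⟩

theorem step {m : ℕ} {f : ℝ → ℝ} (hm : 1 ≤ m) (h : WCm m f) {x : ℝ} (hx0 : 0 ≤ x) (hx1 : x < 1) :
    ∃ y ∈ Icc (0 : ℝ) 1, f x ≤ f y / m + 1 := by
  have hm0 : (0 : ℝ) < m := by exact_mod_cast hm
  set j := ⌊(m : ℝ) * x⌋₊ with hj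
  have hmx : 0 ≤ (m : ℝ) * x := by positivity
  have h1 : (j : ℝ) ≤ m * x := Nat.floor_le hmx
  have h2 : (m : ℝ) * x < j + 1 := Nat.lt_floor_add_one _
  have h3 : j < m := by
    have : (j : ℝ) < m := by nlinarith
    exact_mod_cast this
  obtain ⟨a, ha⟩ : ∃ a, m = a + 1 + j := ⟨m - 1 - j, by omega⟩
  have hy0 : 0 ≤ (m : ℝ) * x - j := by linarith
  have hy1 : (m : ℝ) * x - j ≤ 1 := by linarith
  refine ⟨(m : ℝ) * x - j, ⟨hy0, hy1⟩, ?_⟩
  set y := (m : ℝ) * x - j with hy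
  obtain ⟨hf0, hf1, hf⟩ := h
  have key := hf (sq a y) (mono_sq a hy0 hy1) (mem_sq a hy0 hy1)
  have e1 : ∑ i ∈ Finset.range m, sq a y i = m * x := by
    have := sum_sq (fun t => t) a j y
    rw [← ha] at this
    rw [this, hy]
    ring
  have e2 : ∑ i ∈ Finset.range m, f (sq a y i) ≤ f y := by
    have := sum_sq f a j y
    rw [← ha] at this
    rw [this]
    have k1 : (a : ℝ) * f 0 ≤ 0 := mul_nonpos_of_nonneg_of_nonpos (Nat.cast_nonneg a) hf0
    have k2 : (j : ℝ) * f 1 ≤ 0 := mul_nonpos_of_nonneg_of_nonpos (Nat.cast_nonneg j) hf1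
    linarith
  have e3 : (∑ i ∈ Finset.range m, f (sq a y i)) / m ≤ f y / m :=
    div_le_div_of_nonneg_right e2 hm0.le
  have e4 := (mem_sq a hy0 hy1 (m - 1)).2
  have e5 := (mem_sq a hy0 hy1 0).1
  rw [e1, mul_div_cancel_left₀ _ hm0.ne'] at key
  linarith

end UBaux

open UBaux in
/-- UB -/
theorem t_UB : S_UB := by
  intro m f hm h hB x hx
  by_contra hcon
  push Not at hcon
  have hm2 : (2 : ℝ) ≤ m := by exact_mod_cast hm
  obtain ⟨C, hC⟩ := hB
  have hbdd : BddAbove (f '' Icc (0 : ℝ) 1) := by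
    refine ⟨C, ?_⟩
    rintro _ ⟨z, hz, rfl⟩
    exact hC z hz
  set s := sSup (f '' Icc (0 : ℝ) 1) with hs
  have hle : ∀ z ∈ Icc (0 : ℝ) 1, f z ≤ s := fun z hz => le_csSup hbdd ⟨z, hz, rfl⟩
  have hs2 : 2 < s := lt_of_lt_of_le hcon (hle x hx)
  have hs3 : s ≤ s / 2 + 1 := by
    have hne : (f '' Icc (0 : ℝ) 1).Nonempty := ⟨f x, x, hx, rfl⟩
    apply csSup_le hne
    rintro _ ⟨z, hz, rfl⟩
    rcases eq_or_lt_of_le hz.2 with h1 | h1
    · rw [h1]
      have := h.2.1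
      linarith
    · obtain ⟨y, hy, hfy⟩ := step (by omega) h hz.1 h1
      have h2 : f y / m ≤ s / m := div_le_div_of_nonneg_right (hle y hy) (by linarith)
      have h3 : s / m ≤ s / 2 := div_le_div_of_nonneg_left (by linarith) (by norm_num) hm2
      linarith
  linarith

end WC243
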