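import Pool.Agent.R243.WC.Defs

/-! WC-UP (helper886): the upper bound by iteration of the functional inequality. -/

set_option autoImplicit false

open Set Filter Topology

noncomputable section

namespace WC243

namespace UPaux

/-- `mu t = min (dn t) (1/4)`. -/
def mu (t : ℝ) : ℝ := min (dn t) (1 / 4)

theorem mu_nonneg (t : ℝ) : 0 ≤ mu t := le_min (abs_nonneg _) (by norm_num)

theorem mu_le (t : ℝ) : mu t ≤ 1 / 4 := min_le_right _ _

theorem dn_sub_int (t : ℝ) (j : ℤ) : dn (t - j) = dn t := by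
  unfold dn
  rw [round_sub_intCast]
  congr 1
  push_cast
  ring

theorem mu_sub_int (t : ℝ) (j : ℤ) : mu (t - j) = mu t := by
  unfold mu
  rw [dn_sub_int]

theorem summ (x : ℝ) : Summable (fun k : ℕ => (1 / 4 : ℝ) ^ (k + 1) * mu (4 ^ k * x)) := by
  have h : Summable (fun k : ℕ => (1 / 4 : ℝ) ^ k) :=
    summable_geometric_of_lt_one (by norm_num) (by norm_num)
  refine Summable.of_nonneg_of_le (fun k => mul_nonneg (by positivity) (mu_nonneg _)) ?_ h
  intro k
  have h1 := mu_le (4 ^ k * x)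
  have h0 := mu_nonneg (4 ^ k * x)
  have h2 : (0 : ℝ) < (1 / 4 : ℝ) ^ k := by positivity
  rw [pow_succ]
  nlinarith

theorem G_eq (x : ℝ) : G x = 16 * ∑' k : ℕ, (1 / 4 : ℝ) ^ (k + 1) * mu (4 ^ k * x) := rfl

theorem G_nonneg (x : ℝ) : 0 ≤ G x := by
  rw [G_eq]
  exact mul_nonneg (by norm_num) (tsum_nonneg fun k => mul_nonneg (by positivity) (mu_nonneg _))

theorem G_fun (x : ℝ) : G x = 4 * mu x + G (4 * x) / 4 := by
  rw [G_eq, G_eq, (summ x).tsum_eq_zero_add]
  have h : ∑' k : ℕ, (1 / 4 : ℝ) ^ (k + 1 + 1) * mu (4 ^ (k + 1) * x)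
      = (1 / 4) * ∑' k : ℕ, (1 / 4 : ℝ) ^ (k + 1) * mu (4 ^ k * (4 * x)) := by
    rw [← tsum_mul_left]
    congr 1
    ext k
    have e : (4 : ℝ) ^ (k + 1) * x = 4 ^ k * (4 * x) := by ring
    rw [e]
    ring
  rw [h]
  simp only [pow_zero, one_mul, zero_add, pow_one]
  ring

theorem G_sub_int (x : ℝ) (j : ℤ) : G (x - j) = G x := by
  rw [G_eq, G_eq]
  congr 1
  congr 1
  ext k
  have e : (4 : ℝ) ^ k * (x - j) = 4 ^ k * x - ((4 ^ k * j : ℤ) : ℝ) := by push_cast; ring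
  rw [e, mu_sub_int]

theorem dn_eq {x : ℝ} (h0 : 0 ≤ x) (h1 : x ≤ 1) : dn x = min x (1 - x) := by
  rcases h1.lt_or_eq with h | h
  · unfold dn
    rw [abs_sub_round_eq_min, Int.fract_eq_self.2 ⟨h0, h⟩]
  · subst h
    unfold dn
    simp

theorem mu_a {x : ℝ} (h0 : 0 ≤ x) (h1 : x ≤ 1 / 4) : mu x = x := by
  unfold mu
  have e : min x (1 - x) = x := min_eq_left (by linarith)
  rw [dn_eq h0 (by linarith), e, min_eq_left h1]

theorem mu_b {x : ℝ} (h0 : 1 / 4 ≤ x) (h1 : x ≤ 3 / 4) : mu x = 1 / 4 := by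
  unfold mu
  rw [dn_eq (by linarith) (by linarith)]
  exact min_eq_right (le_min h0 (by linarith))

theorem mu_c {x : ℝ} (h0 : 3 / 4 ≤ x) (h1 : x ≤ 1) : mu x = 1 - x := by
  unfold mu
  have e : min x (1 - x) = 1 - x := min_eq_right (by linarith)
  rw [dn_eq (by linarith) h1, e, min_eq_left (by linarith)]

/-- One step. -/
theorem step {f : ℝ → ℝ} (hf : WC f) {x : ℝ} (hx : x ∈ Icc (0 : ℝ) 1) :
    ∃ y ∈ Icc (0 : ℝ) 1, G y = G (4 * x) ∧ f x ≤ 4 * mu x + f y / 4 := by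
  obtain ⟨f0, f1, hW⟩ := hf
  obtain ⟨hx0, hx1⟩ := hx
  by_cases c1 : x ≤ 1 / 4
  · refine ⟨4 * x, ⟨by linarith, by linarith⟩, rfl, ?_⟩
    have h := hW 0 0 0 (4 * x) le_rfl le_rfl le_rfl (by linarith) (by linarith)
    have e : (0 + 0 + 0 + 4 * x) / 4 = x := by ring
    rw [e] at h
    rw [mu_a hx0 c1]
    linarith
  push Not at c1
  by_cases c2 : x ≤ 1 / 2
  · refine ⟨4 * x - 1, ⟨by linarith, by linarith⟩, ?_, ?_⟩
    · have := G_sub_int (4 * x) 1
      simpa using this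
    have h := hW 0 0 (4 * x - 1) 1 le_rfl le_rfl (by linarith) (by linarith) le_rfl
    have e : (0 + 0 + (4 * x - 1) + 1) / 4 = x := by ring
    rw [e] at h
    rw [mu_b c1.le (by linarith)]
    linarith
  push Not at c2
  by_cases c3 : x ≤ 3 / 4
  · refine ⟨4 * x - 2, ⟨by linarith, by linarith⟩, ?_, ?_⟩
    · have := G_sub_int (4 * x) 2
      simpa using this
    have h := hW 0 (4 * x - 2) 1 1 le_rfl (by linarith) (by linarith) le_rfl le_rfl
    have e : (0 + (4 * x - 2) + 1 + 1) / 4 = x := by ring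
    rw [e] at h
    rw [mu_b c1.le c3]
    linarith
  push Not at c3
  · refine ⟨4 * x - 3, ⟨by linarith, by linarith⟩, ?_, ?_⟩
    · have := G_sub_int (4 * x) 3
      simpa using this
    have h := hW (4 * x - 3) 1 1 1 (by linarith) (by linarith) le_rfl le_rfl le_rfl
    have e : ((4 * x - 3) + 1 + 1 + 1) / 4 = x := by ring
    rw [e] at h
    rw [mu_c c3.le hx1]
    linarith

theorem iter {f : ℝ → ℝ} (hf : WC f) {C : ℝ} (hC : ∀ x ∈ Icc (0 : ℝ) 1, f x ≤ C) (n : ℕ) :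
    ∀ x ∈ Icc (0 : ℝ) 1, f x ≤ G x + max C 0 * (1 / 4) ^ n := by
  induction n with
  | zero =>
    intro x hx
    have h1 := hC x hx
    have h2 := G_nonneg x
    have h3 := le_max_left C 0
    simp only [pow_zero, mul_one]
    linarith
  | succ n ih =>
    intro x hx
    obtain ⟨y, hy, hG, hxy⟩ := step hf hx
    have h1 := ih y hy
    rw [hG] at h1
    have h2 := G_fun x
    rw [pow_succ]
    nlinarith

end UPaux

open UPaux in
theorem t_UP (_hGC : S_GC) : S_UP := by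
  intro f hf ⟨C, hC⟩ x hx
  have hlim : Tendsto (fun n : ℕ => G x + max C 0 * (1 / 4 : ℝ) ^ n) atTop (𝓝 (G x)) := by
    have h := tendsto_pow_atTop_nhds_zero_of_lt_one (r := (1 / 4 : ℝ)) (by norm_num) (by norm_num)
    have h2 := (h.const_mul (max C 0)).const_add (G x)
    simpa using h2
  exact ge_of_tendsto' hlim fun n => iter hf hC n x hx

end WC243
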